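import Pool.Agent.Lib.MP_21a058_co.Z.Main
import Pool.Agent.Lib.MP_21a058_co.Thin.ArrowM

/-! Small parts beside an arbitrary tuple: `f(a, b) ≤ (1 + 1/q) f(b) + C (sum of a)`. -/

set_option linter.unusedSectionVars false
set_option linter.unusedVariables false

namespace Pool.Agent.Lib.MP_21a058_co.Thin

open Finset
open scoped Classical

/-- `∑ i ∈ T, ks i` places are distributed over `T`. -/
theorem exists_assign_on {r : ℕ} (ks : Fin r → ℕ) (T : Finset (Fin r)) :
    ∃ σ : Fin (∑ i ∈ T, ks i) → Fin r, ∀ i ∈ T,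
      ks i ≤ (univ.filter fun j => σ j = i).card := by
  have hcard : Fintype.card (Σ i : {i // i ∈ T}, Fin (ks i)) =
      Fintype.card (Fin (∑ i ∈ T, ks i)) := by
    rw [Fintype.card_sigma, Fintype.card_fin]
    simp only [Fintype.card_fin]
    exact Finset.sum_coe_sort T ks
  obtain ⟨f⟩ := Fintype.card_eq.1 hcard
  refine ⟨fun j => ((f.symm j).1 : Fin r), fun i hi => ?_⟩
  have hinj : Function.Injective (fun y : Fin (ks i) => f ⟨⟨i, hi⟩, y⟩) := by
    intro y y' hyy
    have h1 := f.injective hyy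
    simpa using h1
  calc ks i = (univ : Finset (Fin (ks i))).card := by rw [card_univ, Fintype.card_fin]
    _ = (univ.image (fun y : Fin (ks i) => f ⟨⟨i, hi⟩, y⟩)).card :=
        (card_image_of_injective _ hinj).symm
    _ ≤ _ := by
        apply card_le_card
        intro j hj
        obtain ⟨y, -, rfl⟩ := mem_image.1 hj
        rw [mem_filter]
        refine ⟨mem_univ _, ?_⟩
        show ((f.symm (f ⟨⟨i, hi⟩, y⟩)).1 : Fin r) = i
        rw [f.symm_apply_apply]

/-- Disjoint connected classes for the parts outside the image of `g` and a rest in which all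
cuts have at least `k'` edges, `k' ↦ ks ∘ g`. -/
theorem arrow_of_rest {k k' r m : ℕ} (ks : Fin r → ℕ) (g : Fin m → Fin r)
    (hg : Function.Injective g)
    (h : ∀ (V E : Type) [Fintype V] [Fintype E] (v w : E → V), Nonempty V →
      (∀ X : Finset V, X.Nonempty → X ≠ univ → k ≤ (dl v w univ X).card) →
      ∃ A : Fin (∑ i ∈ univ \ univ.image g, ks i) → Finset E,
        (∀ i j, i ≠ j → Disjoint (A i) (A j)) ∧
        (∀ i, ConnOn v w (A i) univ) ∧ ∀ X : Finset V, X.Nonempty → X ≠ univ →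
          k' ≤ (dl v w (univ \ univ.biUnion A) X).card)
    (hA : Pool.Agent.Lib.MP_21a058_co.Arrow k' (fun x => ks (g x))) :
    Pool.Agent.Lib.MP_21a058_co.Arrow k ks := by
  intro V E _ _ G hG
  have i1 := Fintype.ofFinite V
  have i2 := Fintype.ofFinite E
  obtain ⟨a, b, hab⟩ := P.exists_ends G
  rcases isEmpty_or_nonempty V with hV | hV
  · have hE : IsEmpty E := ⟨fun e => hV.false (a e)⟩
    exact ⟨fun e => (hE.false e).elim, fun i D _ u => (hV.false u).elim⟩
  rw [P.edgeConnected_univ_iff hab] at hG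
  obtain ⟨A, hd, hc, hl⟩ := h V E a b hV (by
    intro X hX hX'
    refine (hG X hX hX').trans (card_le_card ?_)
    intro e he
    exact mem_dl'.2 ⟨mem_univ _, (P.mem_cut a b).1 he⟩)
  -- the rest as a graph of its own
  obtain ⟨F, hF⟩ : ∃ F : Finset E, F = univ \ univ.biUnion A := ⟨_, rfl⟩
  obtain ⟨G', hG'⟩ : ∃ G' : MGraph V {e // e ∈ F}, G' = ⟨fun e => G.ends e.1, fun e => G.loopless e.1⟩ :=
    ⟨_, rfl⟩
  have hab' : ∀ e : {e // e ∈ F}, G'.ends e = s(a e.1, b e.1) := by
    intro e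
    rw [hG']
    exact hab e.1
  have hcut : ∀ (B : Finset {e // e ∈ F}) (Z : Finset V),
      (B ∩ P.cut (fun e => a e.1) (fun e => b e.1) Z).card =
        ((B.image Subtype.val) ∩ P.cut a b Z).card := by
    intro B Z
    rw [← card_image_of_injective _ Subtype.val_injective]
    congr 1
    ext e
    simp only [mem_image, mem_inter, P.mem_cut]
    constructor
    · rintro ⟨x, ⟨h1, h2⟩, rfl⟩
      exact ⟨⟨x, h1, rfl⟩, h2⟩
    · rintro ⟨⟨x, h1, rfl⟩, h2⟩
      exact ⟨x, ⟨h1, h2⟩, rfl⟩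
  have hG1 : G'.EdgeConnected Set.univ k' := by
    rw [P.edgeConnected_univ_iff hab']
    intro Z hZ hZ'
    refine (hl Z hZ hZ').trans ?_
    have h1 := hcut univ Z
    rw [univ_inter] at h1
    rw [h1]
    refine card_le_card ?_
    intro e he
    have h2 := mem_filter.1 (show e ∈ dl a b (univ \ univ.biUnion A) Z from he)
    refine mem_inter.2 ⟨mem_image.2 ⟨⟨e, by rw [hF]; exact h2.1⟩, mem_univ _, rfl⟩, ?_⟩
    exact (P.mem_cut a b).2 h2.2
  obtain ⟨c', hc'⟩ := hA V {e // e ∈ F} G' hG1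
  obtain ⟨σ, hσ⟩ := exists_assign_on ks (univ \ univ.image g)
  have hmemF : ∀ e, e ∈ F ↔ ¬ ∃ j, e ∈ A j := by
    intro e
    rw [hF, mem_sdiff, mem_biUnion]
    simp
  let c : E → Fin r := fun e =>
    if h : e ∈ F then g (c' ⟨e, h⟩)
    else σ (Classical.choose (not_not.1 (fun h2 => h ((hmemF e).2 h2))))
  have hcF : ∀ e : {e // e ∈ F}, c e.1 = g (c' e) := by
    intro e
    show (if h : e.1 ∈ F then g (c' ⟨e.1, h⟩)
      else σ (Classical.choose (not_not.1 (fun h2 => h ((hmemF e.1).2 h2))))) = g (c' e)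
    rw [dif_pos e.2]
  have hcA : ∀ j, ∀ e ∈ A j, c e = σ j := by
    intro j e he
    have hn : e ∉ F := fun h1 => (hmemF e).1 h1 ⟨j, he⟩
    show (if h : e ∈ F then g (c' ⟨e, h⟩)
      else σ (Classical.choose (not_not.1 (fun h2 => h ((hmemF e).2 h2))))) = σ j
    rw [dif_neg hn]
    congr 1
    by_contra hne
    exact disjoint_left.1 (hd _ _ hne)
      (Classical.choose_spec (not_not.1 (fun h2 => hn ((hmemF e).2 h2)))) he
  refine ⟨c, fun i => ?_⟩
  have hset : {e | c e = i} = ((univ.filter fun e => c e = i : Finset E) : Set E) := by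
    ext e
    simp
  rw [hset, P.edgeConnected_iff hab]
  intro Z hZ hZ'
  by_cases hi : ∃ x, g x = i
  · obtain ⟨x, rfl⟩ := hi
    have h1 := hc' x
    have hset' : {e | c' e = x} = ((univ.filter fun e => c' e = x : Finset {e // e ∈ F}) :
        Set {e // e ∈ F}) := by
      ext e
      simp
    rw [hset', P.edgeConnected_iff hab'] at h1
    refine (h1 Z hZ hZ').trans ?_
    rw [hcut]
    refine card_le_card (inter_subset_inter_right ?_)
    intro e he
    obtain ⟨y, hy, rfl⟩ := mem_image.1 he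
    have h2 : c' y = x := (mem_filter.1 hy).2
    exact mem_filter.2 ⟨mem_univ _, by rw [hcF, h2]⟩
  · have hi' : i ∈ univ \ univ.image g := by
      refine mem_sdiff.2 ⟨mem_univ _, fun h1 => hi ?_⟩
      obtain ⟨x, -, hx⟩ := mem_image.1 h1
      exact ⟨x, hx⟩
    refine (hσ i hi').trans ?_
    have hex : ∀ j, ∃ e ∈ A j, e ∈ P.cut a b Z := by
      intro j
      obtain ⟨x, hx⟩ := hZ
      have hex : ∃ y, y ∉ Z := by
        by_contra hcon
        push Not at hcon
        exact hZ' (eq_univ_of_forall hcon)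
      obtain ⟨y, hy⟩ := hex
      obtain ⟨e, he, -, -, hh⟩ := hc j Z ⟨x, mem_univ _, hx⟩ ⟨y, mem_univ _, hy⟩
      exact ⟨e, he, (P.mem_cut a b).2 hh⟩
    choose t ht1 ht2 using hex
    apply card_le_card_of_injOn t
    · intro j hj
      have hj' : σ j = i := (mem_filter.1 hj).2
      exact mem_inter.2 ⟨mem_filter.2 ⟨mem_univ _, by rw [hcA j _ (ht1 j), hj']⟩, ht2 j⟩
    · intro j _ j' _ hjj
      by_contra hne
      have h1 := ht1 j
      rw [hjj] at h1
      exact disjoint_left.1 (hd _ _ hne) h1 (ht1 j')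

/-- For every `q ≥ 1` there is `C` such that for all tuples `ks` and every selection `g` of parts:
if `k'` suffices for the selected parts and `(q + 1) k' + C (sum of the other parts) ≤ q k`, then
`k` suffices for all parts. -/
theorem arrow_gen (q : ℕ) (hq : 1 ≤ q) : ∃ C : ℕ, ∀ (r : ℕ) (ks : Fin r → ℕ) (m : ℕ)
    (g : Fin m → Fin r), Function.Injective g → ∀ k k' : ℕ,
    Pool.Agent.Lib.MP_21a058_co.Arrow k' (fun x => ks (g x)) →
    (q + 1) * k' + C * (∑ i ∈ univ \ univ.image g, ks i) ≤ q * k →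
    Pool.Agent.Lib.MP_21a058_co.Arrow k ks := by
  obtain ⟨C, hC⟩ := main_eps q hq
  exact ⟨C, fun r ks m g hg k k' hA h => arrow_of_rest ks g hg
    (fun V E _ _ v w hV hk => hC V E v w k k' _ hV hk h) hA⟩

end Pool.Agent.Lib.MP_21a058_co.Thin
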