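import Mathlib

/-! Greedy colouring of a relation of bounded degree, and the size of a laminar family with few
disjoint members and short chains (MP_21a058_co). -/

set_option linter.unusedSectionVars false
set_option linter.unusedVariables false

namespace Pool.Agent.Lib.MP_21a058_co.Z

open Finset
open scoped Classical

/-- Greedy colouring: if every member of `S` is in relation with at most `d` members of `S`,
then `d + 1` colours are enough. -/
theorem greedy {α : Type*} (rel : α → α → Prop) (hsymm : ∀ x y, rel x y → rel y x) (d : ℕ)
    (S : Finset α) (h : ∀ x ∈ S, (S.filter (fun y => y ≠ x ∧ rel x y)).card ≤ d) :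
    ∃ c : α → Fin (d + 1), ∀ x ∈ S, ∀ y ∈ S, x ≠ y → rel x y → c x ≠ c y := by
  induction S using Finset.induction_on with
  | empty => exact ⟨fun _ => 0, fun x hx => absurd hx (notMem_empty x)⟩
  | insert a S ha ih =>
    obtain ⟨c, hc⟩ := ih fun x hx => by
      refine le_trans (card_le_card ?_) (h x (mem_insert_of_mem hx))
      exact filter_subset_filter _ (subset_insert a S)
    -- a free colour for `a`
    have h1 : ((S.filter (fun y => y ≠ a ∧ rel a y)).image c).card ≤ d := by
      refine card_image_le.trans (le_trans (card_le_card ?_) (h a (mem_insert_self a S)))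
      exact filter_subset_filter _ (subset_insert a S)
    have h2 : ∃ k : Fin (d + 1), k ∉ (S.filter (fun y => y ≠ a ∧ rel a y)).image c := by
      by_contra hcon
      push Not at hcon
      have h3 : (univ : Finset (Fin (d + 1))) ⊆ (S.filter (fun y => y ≠ a ∧ rel a y)).image c :=
        fun k _ => hcon k
      have h4 := card_le_card h3
      rw [card_univ, Fintype.card_fin] at h4
      omega
    obtain ⟨k, hk⟩ := h2
    refine ⟨Function.update c a k, fun x hx0 y hy0 hxy hr => ?_⟩
    rcases mem_insert.1 hx0 with hx | hx
    · rcases mem_insert.1 hy0 with hy | hy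
      · exact absurd (hx.trans hy.symm) hxy
      · have hya : y ≠ a := fun e => ha (e ▸ hy)
        rw [hx, Function.update_self, Function.update_of_ne hya]
        intro hh
        exact hk (mem_image.2 ⟨y, mem_filter.2 ⟨hy, hya, hx ▸ hr⟩, hh.symm⟩)
    · have hxa : x ≠ a := fun e => ha (e ▸ hx)
      rcases mem_insert.1 hy0 with hy | hy
      · rw [hy, Function.update_self, Function.update_of_ne hxa]
        intro hh
        exact hk (mem_image.2 ⟨x, mem_filter.2 ⟨hx, hxa, hsymm x a (hy ▸ hr)⟩, hh⟩)
      · have hya : y ≠ a := fun e => ha (e ▸ hy)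
        rw [Function.update_of_ne hxa, Function.update_of_ne hya]
        exact hc x hx y hy hxy hr

/-- A laminar family of nonempty sets with at most `p` pairwise disjoint members and chains of at
most `q` members has at most `p * q` members. -/
theorem laminar_card {V : Type*} (S : Finset (Finset V)) (hne : ∀ X ∈ S, X.Nonempty)
    (hlam : ∀ X ∈ S, ∀ Y ∈ S, X ⊆ Y ∨ Y ⊆ X ∨ Disjoint X Y) (p q : ℕ)
    (hp : ∀ T ⊆ S, (∀ X ∈ T, ∀ Y ∈ T, X ≠ Y → Disjoint X Y) → T.card ≤ p)
    (hq : ∀ T ⊆ S, (∀ X ∈ T, ∀ Y ∈ T, X ⊆ Y ∨ Y ⊆ X) → T.card ≤ q) : S.card ≤ p * q := by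
  -- height of a member = number of members below it (they form a chain only upwards), so use
  -- the number of members above
  set f : Finset V → ℕ := fun X => (S.filter (fun Z => X ⊂ Z)).card with hf
  have hup : ∀ X ∈ S, f X < q := by
    intro X hX
    have h1 : (insert X (S.filter (fun Z => X ⊂ Z))).card ≤ q := by
      refine hq _ ?_ ?_
      · intro Z hZ
        rcases mem_insert.1 hZ with rfl | hZ
        · exact hX
        · exact (mem_filter.1 hZ).1
      · intro Y hY Z hZ
        have hXY : X ⊆ Y := by
          rcases mem_insert.1 hY with rfl | hY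
          · exact Subset.refl _
          · exact (mem_filter.1 hY).2.1
        have hXZ : X ⊆ Z := by
          rcases mem_insert.1 hZ with rfl | hZ
          · exact Subset.refl _
          · exact (mem_filter.1 hZ).2.1
        have hYS : Y ∈ S := by
          rcases mem_insert.1 hY with rfl | hY
          · exact hX
          · exact (mem_filter.1 hY).1
        have hZS : Z ∈ S := by
          rcases mem_insert.1 hZ with rfl | hZ
          · exact hX
          · exact (mem_filter.1 hZ).1
        rcases hlam Y hYS Z hZS with h | h | h
        · exact Or.inl h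
        · exact Or.inr h
        · obtain ⟨x, hx⟩ := hne X hX
          exact absurd (hXZ hx) (disjoint_left.1 h (hXY hx))
    rw [card_insert_of_notMem fun hh => (mem_filter.1 hh).2.2 (Subset.refl X)] at h1
    exact h1
  have hcls : ∀ k ∈ range q, (S.filter (fun X => f X = k)).card ≤ p := by
    intro k _
    refine hp _ (filter_subset _ _) fun X hX Y hY hne' => ?_
    rw [mem_filter] at hX hY
    -- two comparable members have different heights
    have key : ∀ X ∈ S, ∀ Y ∈ S, X ⊂ Y → f Y < f X := by
      intro X hX Y hY hXY
      refine card_lt_card ?_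
      rw [ssubset_iff_of_subset]
      · exact ⟨Y, mem_filter.2 ⟨hY, hXY⟩, fun hh => (mem_filter.1 hh).2.2 (Subset.refl Y)⟩
      · intro Z hZ
        rw [mem_filter] at hZ ⊢
        exact ⟨hZ.1, hXY.trans hZ.2⟩
    rcases hlam X hX.1 Y hY.1 with h | h | h
    · have h1 := key X hX.1 Y hY.1 (h.ssubset_of_ne hne')
      omega
    · have h1 := key Y hY.1 X hX.1 (h.ssubset_of_ne (Ne.symm hne'))
      omega
    · exact h
  have h1 : S.card = ∑ k ∈ range q, (S.filter (fun X => f X = k)).card :=
    card_eq_sum_card_fiberwise fun X hX => by
      have := hup X hX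
      simpa using this
  rw [h1]
  refine (sum_le_sum hcls).trans ?_
  rw [sum_const, card_range, smul_eq_mul, Nat.mul_comm]

end Pool.Agent.Lib.MP_21a058_co.Z
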