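import Pool.Agent.Lib.MP_21a058_co.Thin.Defs
import Pool.Agent.Lib.MP_21a058_co.Thin.Tree
import Pool.Agent.Lib.MP_21a058_co.Z.Col

/-! Near-minimum cuts of a graph with many disjoint connected spanning classes: every such cut is
crossed by at most `2 ^ p` others (proof by atoms), so they are boundedly many laminar families
(MP_21a058_co). -/

set_option linter.unusedSectionVars false
set_option linter.unusedVariables false

namespace Pool.Agent.Lib.MP_21a058_co.Thin

open Finset
open scoped Classical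

variable {V E : Type} [Fintype V]

/-- submodularity of the cut function -/
theorem dl_inter_union (v w : E → V) (R : Finset E) (A Z : Finset V) :
    (dl v w R (A ∩ Z)).card + (dl v w R (A ∪ Z)).card ≤
      (dl v w R A).card + (dl v w R Z).card := by
  unfold dl
  simp only [card_filter, ← sum_add_distrib]
  refine sum_le_sum fun e _ => ?_
  simp only [mem_inter, mem_union]
  by_cases h1 : v e ∈ A <;> by_cases h2 : w e ∈ A <;> by_cases h3 : v e ∈ Z <;>
    by_cases h4 : w e ∈ Z <;> simp [h1, h2, h3, h4]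

/-- posimodularity of the cut function -/
theorem dl_sdiff_sdiff (v w : E → V) (R : Finset E) (A Z : Finset V) :
    (dl v w R (A \ Z)).card + (dl v w R (Z \ A)).card ≤
      (dl v w R A).card + (dl v w R Z).card := by
  unfold dl
  simp only [card_filter, ← sum_add_distrib]
  refine sum_le_sum fun e _ => ?_
  simp only [mem_sdiff]
  by_cases h1 : v e ∈ A <;> by_cases h2 : w e ∈ A <;> by_cases h3 : v e ∈ Z <;>
    by_cases h4 : w e ∈ Z <;> simp [h1, h2, h3, h4]

/-- the class of colour `i` (an atom) -/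
noncomputable def cls (c : V → ℕ) (i : ℕ) : Finset V := univ.filter (fun x => c x = i)

theorem mem_cls (c : V → ℕ) (i : ℕ) (x : V) : x ∈ cls c i ↔ c x = i := by
  simp [cls]

/-- every edge between two atoms is in the cuts of both -/
theorem two_cr_le (v w : E → V) (R : Finset E) (c : V → ℕ) :
    2 * cr v w R c univ ≤ ∑ i ∈ univ.image c, (dl v w R (cls c i)).card := by
  unfold cr dl
  simp only [card_filter, mem_cls]
  rw [sum_comm, mul_sum]
  refine sum_le_sum fun e _ => ?_
  by_cases h : c (v e) = c (w e)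
  · simp [h]
  · have h1 : ({c (v e), c (w e)} : Finset ℕ).card = 2 := card_pair h
    have h2 : ({c (v e), c (w e)} : Finset ℕ) ⊆
        (univ.image c).filter (fun i => ¬ (c (v e) = i ↔ c (w e) = i)) := by
      intro i hi
      rw [mem_insert, mem_singleton] at hi
      rcases hi with rfl | rfl
      · rw [mem_filter]
        exact ⟨mem_image_of_mem c (mem_univ _), fun hh => h (hh.1 rfl).symm⟩
      · rw [mem_filter]
        exact ⟨mem_image_of_mem c (mem_univ _), fun hh => h (hh.2 rfl)⟩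
    have h3 := card_le_card h2
    rw [h1, card_filter] at h3
    simpa [h] using h3

/-- a state of level `m`: `Y` is a union of at least `m + 1` atoms and the rest, and every atom
has a small cut -/
def St (v w : E → V) (R : Finset E) (Y : Finset V) (lam u m : ℕ) (c : V → ℕ) : Prop :=
  (∀ x y, c x = c y → (x ∈ Y ↔ y ∈ Y)) ∧ m + 1 ≤ (univ.image c).card ∧
    ∀ x, (dl v w R (cls c (c x))).card ≤ lam + m * u

theorem St.count {v w : E → V} {R : Finset E} {Y : Finset V} {lam u m : ℕ} {c : V → ℕ}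
    (h : St v w R Y lam u m c) {τ : ℕ} (T : Fin τ → Finset E) (hTR : ∀ i, T i ⊆ R)
    (hd : ∀ i j, i ≠ j → Disjoint (T i) (T j)) (hT : ∀ i, ConnOn v w (T i) univ)
    {p : ℕ} (hmp : m ≤ p) (hp : (p + 1) * (lam + p * u) < 2 * τ * p) :
    (univ.image c).card ≤ p := by
  by_contra hcon
  push Not at hcon
  obtain ⟨n, hn⟩ : ∃ n, (univ.image c).card = p + 1 + n :=
    ⟨(univ.image c).card - (p + 1), by omega⟩
  have h1 : τ * (univ.image c).card ≤ cr v w R c univ + τ := by
    have h0 := conn_cross_mul v w T hTR hd hT c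
    have e : ∀ d1 d2 : DecidableEq ℕ, (@Finset.image V ℕ d1 c univ).card =
        (@Finset.image V ℕ d2 c univ).card := fun d1 d2 => by
      rw [Subsingleton.elim d1 d2]
    exact le_trans (le_of_eq (congrArg (fun x => τ * x) (e _ _))) h0
  have h2 := two_cr_le v w R c
  have h3 : ∑ i ∈ univ.image c, (dl v w R (cls c i)).card ≤
      ∑ i ∈ univ.image c, (lam + p * u) := by
    refine sum_le_sum fun i hi => ?_
    obtain ⟨x, -, rfl⟩ := mem_image.1 hi
    refine (h.2.2 x).trans ?_
    have := Nat.mul_le_mul_right u hmp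
    omega
  rw [sum_const, smul_eq_mul] at h3
  rw [hn] at h1 h3
  -- 2 τ (p + 1 + n) ≤ (p + 1 + n) B + 2 τ
  have h4 : 2 * τ * (p + n) ≤ (p + 1 + n) * (lam + p * u) := by
    have h5 : τ * (p + 1 + n) = τ * (p + n) + τ := by ring
    have h6 : 2 * τ * (p + n) = 2 * (τ * (p + n)) := by ring
    omega
  -- multiply
  set B := lam + p * u with hB
  have h5 : (p + 1) * (2 * τ * (p + n)) ≤ (p + 1) * ((p + 1 + n) * B) :=
    Nat.mul_le_mul_left _ h4
  have h6 : (p + 1 + n) * ((p + 1) * B) + (p + 1 + n) ≤ (p + 1 + n) * (2 * τ * p) := by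
    have := Nat.mul_le_mul_left (p + 1 + n) (Nat.succ_le_of_lt hp)
    calc (p + 1 + n) * ((p + 1) * B) + (p + 1 + n) = (p + 1 + n) * ((p + 1) * B + 1) := by ring
      _ ≤ _ := this
  have h7 : (p + 1) * ((p + 1 + n) * B) = (p + 1 + n) * ((p + 1) * B) := by ring
  have h8 : (p + 1) * (2 * τ * (p + n)) = (p + 1 + n) * (2 * τ * p) + 2 * τ * n := by ring
  omega

theorem St.step {v w : E → V} {R : Finset E} {Y : Finset V} {lam u m : ℕ} {c : V → ℕ}
    (h : St v w R Y lam u m c)
    (hlam : ∀ X : Finset V, X.Nonempty → X ≠ univ → lam ≤ (dl v w R X).card)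
    {Z : Finset V} (hZ : (dl v w R Z).card ≤ lam + u)
    (z1 : ∃ x, x ∈ Z ∧ x ∈ Y) (z2 : ∃ x, x ∈ Z ∧ x ∉ Y) (z3 : ∃ x, x ∈ Y ∧ x ∉ Z)
    (z4 : ∃ x, x ∉ Y ∧ x ∉ Z) (hs : ∃ x y, c x = c y ∧ x ∈ Z ∧ y ∉ Z) :
    ∃ c', St v w R Y lam u (m + 1) c' := by
  obtain ⟨g1, g2, g3⟩ := h
  set c' : V → ℕ := fun x => 2 * c x + (if x ∈ Z then 1 else 0) with hc'
  have hcc : ∀ x y, c' x = c' y ↔ c x = c y ∧ (x ∈ Z ↔ y ∈ Z) := by
    intro x y
    simp only [hc']
    by_cases hx : x ∈ Z <;> by_cases hy : y ∈ Z <;> simp only [hx, hy, if_true, if_false] <;>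
      constructor <;> intro hh
    · exact ⟨by omega, by simp⟩
    · omega
    · exact absurd hh (by omega)
    · exact absurd hh.2 (by simp)
    · exact absurd hh (by omega)
    · exact absurd hh.2 (by simp)
    · exact ⟨by omega, by simp⟩
    · omega
  refine ⟨c', fun x y hxy => g1 x y ((hcc x y).1 hxy).1, ?_, fun x => ?_⟩
  · have e1 : (univ.image c').image (fun i => i / 2) = univ.image c := by
      rw [image_image]
      refine image_congr fun x _ => ?_
      simp only [Function.comp, hc']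
      split_ifs <;> omega
    have e2 : ((univ.image c').image (fun i => i / 2)).card ≤ (univ.image c').card :=
      card_image_le
    have e3 : ((univ.image c').image (fun i => i / 2)).card ≠ (univ.image c').card := by
      intro hh
      obtain ⟨x, y, hxy, hx, hy⟩ := hs
      have e4 := card_image_iff.1 hh
      have e5 : c' x = c' y := e4 (by simp) (by simp) (by
        simp only [hc', hx, hy, if_true, if_false, hxy]
        omega)
      exact hy (((hcc x y).1 e5).2.1 hx)
    rw [e1] at e2 e3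
    omega
  · by_cases hx : x ∈ Z
    · have e1 : cls c' (c' x) = cls c (c x) ∩ Z := by
        ext y
        rw [mem_cls, mem_inter, mem_cls, hcc]
        simp [hx]
      rw [e1]
      have e2 := dl_inter_union v w R (cls c (c x)) Z
      have e3 := g3 x
      have e4 : lam ≤ (dl v w R (cls c (c x) ∪ Z)).card := by
        refine hlam _ ⟨x, mem_union_right _ hx⟩ fun hh => ?_
        by_cases hxY : x ∈ Y
        · obtain ⟨y, hy1, hy2⟩ := z4
          have : y ∈ cls c (c x) ∪ Z := hh ▸ mem_univ y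
          rw [mem_union, mem_cls] at this
          rcases this with h5 | h5
          · exact hy1 ((g1 y x h5).2 hxY)
          · exact hy2 h5
        · obtain ⟨y, hy1, hy2⟩ := z3
          have : y ∈ cls c (c x) ∪ Z := hh ▸ mem_univ y
          rw [mem_union, mem_cls] at this
          rcases this with h5 | h5
          · exact hxY ((g1 y x h5).1 hy1)
          · exact hy2 h5
      have e5 : (m + 1) * u = m * u + u := by ring
      omega
    · have e1 : cls c' (c' x) = cls c (c x) \ Z := by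
        ext y
        rw [mem_cls, mem_sdiff, mem_cls, hcc]
        simp [hx]
      rw [e1]
      have e2 := dl_sdiff_sdiff v w R (cls c (c x)) Z
      have e3 := g3 x
      have e4 : lam ≤ (dl v w R (Z \ cls c (c x))).card := by
        refine hlam _ ?_ fun hh => ?_
        · by_cases hxY : x ∈ Y
          · obtain ⟨y, hy1, hy2⟩ := z2
            refine ⟨y, ?_⟩
            rw [mem_sdiff, mem_cls]
            exact ⟨hy1, fun h5 => hy2 ((g1 y x h5).2 hxY)⟩
          · obtain ⟨y, hy1, hy2⟩ := z1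
            refine ⟨y, ?_⟩
            rw [mem_sdiff, mem_cls]
            exact ⟨hy1, fun h5 => hxY ((g1 y x h5).1 hy2)⟩
        · have : x ∈ Z \ cls c (c x) := hh ▸ mem_univ x
          exact hx (mem_sdiff.1 this).1
      have e5 : (m + 1) * u = m * u + u := by ring
      omega

/-- ATOMS: the near-minimum cuts which cross `Y` are unions of at most `p` atoms. -/
theorem atoms (v w : E → V) (R : Finset E) {τ : ℕ} (T : Fin τ → Finset E)
    (hTR : ∀ i, T i ⊆ R) (hd : ∀ i j, i ≠ j → Disjoint (T i) (T j))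
    (hT : ∀ i, ConnOn v w (T i) univ) (lam u p : ℕ)
    (hlam : ∀ X : Finset V, X.Nonempty → X ≠ univ → lam ≤ (dl v w R X).card)
    (hp : (p + 1) * (lam + p * u) < 2 * τ * p) (Y : Finset V) (hY : Y.Nonempty)
    (hYu : Y ≠ univ) (hYd : (dl v w R Y).card ≤ lam + u) :
    ∃ c : V → ℕ, (univ.image c).card ≤ p ∧ ∀ Z : Finset V, (dl v w R Z).card ≤ lam + u →
      (∃ x, x ∈ Z ∧ x ∈ Y) → (∃ x, x ∈ Z ∧ x ∉ Y) → (∃ x, x ∈ Y ∧ x ∉ Z) →
      (∃ x, x ∉ Y ∧ x ∉ Z) → ∀ x y, c x = c y → x ∈ Z → y ∈ Z := by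
  by_contra hcon
  push Not at hcon
  have hp0 : 1 ≤ p := by
    rcases Nat.eq_zero_or_pos p with h0 | h0
    · subst h0; simp at hp
    · exact h0
  have key : ∀ m, m + 1 ≤ p → ∃ c, St v w R Y lam u (m + 1) c := by
    intro m
    induction m with
    | zero =>
      intro _
      refine ⟨fun x => if x ∈ Y then 1 else 0, fun x y hxy => ?_, ?_, fun x => ?_⟩
      · by_cases hx : x ∈ Y <;> by_cases hy : y ∈ Y <;> simp [hx, hy] at hxy ⊢
      · obtain ⟨x, hx⟩ := hY
        obtain ⟨y, hy⟩ : ∃ y, y ∉ Y := by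
          by_contra hh
          push Not at hh
          exact hYu (eq_univ_iff_forall.2 hh)
        have h1 : ({1, 0} : Finset ℕ) ⊆ univ.image (fun x => if x ∈ Y then 1 else 0) := by
          intro i hi
          rw [mem_insert, mem_singleton] at hi
          rcases hi with rfl | rfl
          · exact mem_image.2 ⟨x, mem_univ _, by simp [hx]⟩
          · exact mem_image.2 ⟨y, mem_univ _, by simp [hy]⟩
        have h2 := card_le_card h1
        have h3 : ({1, 0} : Finset ℕ).card = 2 := by decide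
        omega
      · by_cases hx : x ∈ Y
        · have : cls (fun x => if x ∈ Y then 1 else 0) (if x ∈ Y then 1 else 0) = Y := by
            ext y
            rw [mem_cls]
            by_cases hy : y ∈ Y <;> simp [hx, hy]
          simp only [this]
          omega
        · have : dl v w R (cls (fun x => if x ∈ Y then 1 else 0) (if x ∈ Y then 1 else 0)) =
              dl v w R Y := by
            unfold dl
            refine filter_congr fun e _ => ?_
            rw [mem_cls, mem_cls]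
            by_cases hy : v e ∈ Y <;> by_cases hz : w e ∈ Y <;> simp [hx, hy, hz]
          simp only [this]
          omega
    | succ m ih =>
      intro hm
      obtain ⟨c, hc⟩ := ih (by omega)
      obtain ⟨Z, hZ, z1, z2, z3, z4, x, y, hxy, hx, hy⟩ :=
        hcon c (hc.count T hTR hd hT (by omega) hp)
      exact hc.step hlam hZ z1 z2 z3 z4 ⟨x, y, hxy, hx, hy⟩
  obtain ⟨c, hc⟩ := key (p - 1) (by omega)
  have h1 := hc.count T hTR hd hT (by omega) hp
  have h2 := hc.2.1
  omega

/-- every near-minimum cut is crossed by at most `2 ^ p` near-minimum cuts -/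
theorem atoms_deg (v w : E → V) (R : Finset E) {τ : ℕ} (T : Fin τ → Finset E)
    (hTR : ∀ i, T i ⊆ R) (hd : ∀ i j, i ≠ j → Disjoint (T i) (T j))
    (hT : ∀ i, ConnOn v w (T i) univ) (lam u p : ℕ)
    (hlam : ∀ X : Finset V, X.Nonempty → X ≠ univ → lam ≤ (dl v w R X).card)
    (hp : (p + 1) * (lam + p * u) < 2 * τ * p) (Y : Finset V) (hY : Y.Nonempty)
    (hYu : Y ≠ univ) (hYd : (dl v w R Y).card ≤ lam + u) (S : Finset (Finset V))
    (hS : ∀ Z ∈ S, (dl v w R Z).card ≤ lam + u ∧
      (∃ x, x ∈ Z ∧ x ∈ Y) ∧ (∃ x, x ∈ Z ∧ x ∉ Y) ∧ (∃ x, x ∈ Y ∧ x ∉ Z) ∧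
      (∃ x, x ∉ Y ∧ x ∉ Z)) : S.card ≤ 2 ^ p := by
  obtain ⟨c, hc, hcs⟩ := atoms v w R T hTR hd hT lam u p hlam hp Y hY hYu hYd
  have h1 : (S.image (fun Z => Z.image c)).card = S.card := by
    refine card_image_of_injOn fun Z hZ Z' hZ' hh => ?_
    have hZ1 := hS Z hZ
    have hZ2 := hS Z' hZ'
    have k1 := hcs Z hZ1.1 hZ1.2.1 hZ1.2.2.1 hZ1.2.2.2.1 hZ1.2.2.2.2
    have k2 := hcs Z' hZ2.1 hZ2.2.1 hZ2.2.2.1 hZ2.2.2.2.1 hZ2.2.2.2.2
    have hh' : Z.image c = Z'.image c := hh
    ext x
    constructor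
    · intro hx
      have : c x ∈ Z'.image c := hh' ▸ mem_image_of_mem c hx
      obtain ⟨y, hy, hyx⟩ := mem_image.1 this
      exact k2 y x hyx hy
    · intro hx
      have : c x ∈ Z.image c := hh' ▸ mem_image_of_mem c hx
      obtain ⟨y, hy, hyx⟩ := mem_image.1 this
      exact k1 y x hyx hy
  have h2 : S.image (fun Z => Z.image c) ⊆ (univ.image c).powerset := by
    intro X hX
    obtain ⟨Z, -, rfl⟩ := mem_image.1 hX
    exact mem_powerset.2 (image_subset_image (subset_univ _))
  have h3 := card_le_card h2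
  rw [h1, card_powerset] at h3
  exact h3.trans (Nat.pow_le_pow_right (by norm_num) hc)

/-- the near-minimum cuts without the root are `2 ^ p + 1` laminar families -/
theorem atoms_col (v w : E → V) (r : V) (R : Finset E) {τ : ℕ} (T : Fin τ → Finset E)
    (hTR : ∀ i, T i ⊆ R) (hd : ∀ i j, i ≠ j → Disjoint (T i) (T j))
    (hT : ∀ i, ConnOn v w (T i) univ) (lam u p : ℕ)
    (hlam : ∀ X : Finset V, X.Nonempty → X ≠ univ → lam ≤ (dl v w R X).card)
    (hp : (p + 1) * (lam + p * u) < 2 * τ * p) :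
    ∃ c : Finset V → Fin (2 ^ p + 1), ∀ X Y : Finset V,
      X.Nonempty → r ∉ X → (dl v w R X).card ≤ lam + u →
      Y.Nonempty → r ∉ Y → (dl v w R Y).card ≤ lam + u →
      c X = c Y → X ⊆ Y ∨ Y ⊆ X ∨ Disjoint X Y := by
  obtain ⟨c, hc⟩ := Z.greedy (fun X Y : Finset V => ¬ (X ⊆ Y ∨ Y ⊆ X ∨ Disjoint X Y))
    (fun X Y h h' => h (by
      rcases h' with h' | h' | h'
      · exact Or.inr (Or.inl h')
      · exact Or.inl h'
      · exact Or.inr (Or.inr h'.symm))) (2 ^ p)
    (univ.filter (fun X : Finset V => X.Nonempty ∧ r ∉ X ∧ (dl v w R X).card ≤ lam + u)) (by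
      intro Y hY
      obtain ⟨-, y1, y2, y3⟩ := mem_filter.1 hY
      refine atoms_deg v w R T hTR hd hT lam u p hlam hp Y y1 (fun h => y2 (h ▸ mem_univ r)) y3 _ ?_
      intro Z hZ
      obtain ⟨hZ1, -, hZ3⟩ := (@mem_filter _ _ (_) _ _).1 hZ
      obtain ⟨-, z1, z2, z3⟩ := mem_filter.1 hZ1
      push Not at hZ3
      obtain ⟨k1, k2, k3⟩ := hZ3
      rw [not_subset] at k1 k2
      rw [not_disjoint_iff] at k3
      obtain ⟨x, hx1, hx2⟩ := k1
      obtain ⟨y, hy1, hy2⟩ := k2
      obtain ⟨z, hz1, hz2⟩ := k3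
      exact ⟨z3, ⟨z, hz2, hz1⟩, ⟨y, hy1, hy2⟩, ⟨x, hx1, hx2⟩, ⟨r, y2, z2⟩⟩)
  refine ⟨c, fun X Y x1 x2 x3 y1 y2 y3 hXY => ?_⟩
  by_contra hh
  have hne : X ≠ Y := fun h => hh (Or.inl (h ▸ Subset.refl X))
  exact hc X (mem_filter.2 ⟨mem_univ _, x1, x2, x3⟩) Y (mem_filter.2 ⟨mem_univ _, y1, y2, y3⟩)
    hne hh hXY

end Pool.Agent.Lib.MP_21a058_co.Thin
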