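import Pool.Agent.Lib.MP_21a058_co.Z.Iter
import Pool.Agent.Lib.MP_21a058_co.Thin.TPack

/-!
MP_21a058_co, `(1 + ε)`: tree packing and the rounds together.
-/

set_option linter.unusedSectionVars false
set_option linter.unusedVariables false

namespace Pool.Agent.Lib.MP_21a058_co.Thin

open Finset
open scoped Classical

variable {V E : Type} [Fintype V]

/-- `n` disjoint connected classes cross every cut at least `n` times -/
theorem cut_ge_classes (v w : E → V) {R : Finset E} {n : ℕ} (T : Fin n → Finset E)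
    (hTR : ∀ i, T i ⊆ R) (hd : ∀ i j, i ≠ j → Disjoint (T i) (T j))
    (hT : ∀ i, ConnOn v w (T i) univ) {X : Finset V} (hX : X.Nonempty) (hXu : X ≠ univ) :
    n ≤ (dl v w R X).card := by
  have h1 : ∀ i, ∃ e, e ∈ T i ∧ e ∈ dl v w R X := by
    intro i
    obtain ⟨x, hx⟩ := hX
    obtain ⟨y, hy⟩ : ∃ y, y ∉ X := by
      by_contra hcon
      push Not at hcon
      exact hXu (eq_univ_iff_forall.2 hcon)
    obtain ⟨e, he, -, -, hc⟩ := hT i X ⟨x, mem_univ _, hx⟩ ⟨y, mem_univ _, hy⟩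
    exact ⟨e, he, mem_filter.2 ⟨hTR i he, hc⟩⟩
  choose f hf hf2 using h1
  have h2 : Function.Injective f := by
    intro i j hij
    by_contra hne
    refine (disjoint_left.1 (hd i j hne)) (hf i) ?_
    rw [hij]
    exact hf j
  have h3 : (univ.image f).card = n := by
    rw [card_image_of_injective _ h2, card_univ, Fintype.card_fin]
  rw [← h3]
  refine card_le_card fun e he => ?_
  obtain ⟨i, -, hi⟩ := mem_image.1 he
  rw [← hi]
  exact hf2 i

/-- **assembly** from the two abstract inputs -/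
theorem asm [Fintype E] {v w : E → V} {r : V} {c N g d q m : ℕ} (hc : ThinProp v w r c)
    (hq : NearCol v w r N g d q) (h2d : 2 ≤ d) (hN : 0 < N) (hm : N ≤ 2 ^ m) {k s j : ℕ}
    (hj : j + d ≤ N)
    (hk : ∀ X : Finset V, X.Nonempty → X ≠ univ → k ≤ (dl v w univ X).card)
    (hks : 2 * (((c ^ m) ^ q) ^ j * s + N * g) ≤ k) :
    ∃ A : Fin s → Finset E, (∀ i j, i ≠ j → Disjoint (A i) (A j)) ∧
      (∀ i, ConnOn v w (A i) univ) ∧ ∀ X : Finset V, X.Nonempty → X ≠ univ →
        (N + j) * g ≤ (dl v w (univ \ univ.biUnion A) X).card := by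
  obtain ⟨n, hn⟩ : ∃ n, n = ((c ^ m) ^ q) ^ j * s := ⟨_, rfl⟩
  rw [← hn] at hks
  obtain ⟨T, -, t2, t3⟩ := tree_packing v w (univ : Finset E) (n + N * g) ⟨r⟩
    fun X h1 h2 => hks.trans (hk X h1 h2)
  obtain ⟨TH, hTH⟩ : ∃ TH : Fin n → Finset E, ∀ i, TH i = T (Fin.castAdd (N * g) i) :=
    ⟨_, fun _ => rfl⟩
  obtain ⟨TR, hTR⟩ : ∃ TR : Fin (N * g) → Finset E, ∀ i, TR i = T (Fin.natAdd n i) :=
    ⟨_, fun _ => rfl⟩
  have hH : Trees v w (univ.biUnion TH) (((c ^ m) ^ q) ^ j * s) := by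
    rw [← hn]
    refine ⟨TH, rfl, fun i j hij => ?_, fun i => ?_⟩
    · rw [hTH, hTH]
      exact t2 _ _ fun h => hij (Fin.castAdd_injective _ _ h)
    · rw [hTH]
      exact t3 _
  have hTRd : ∀ i j, i ≠ j → Disjoint (TR i) (TR j) := by
    intro i j hij
    rw [hTR, hTR]
    exact t2 _ _ fun h => hij (Fin.natAdd_injective _ _ h)
  have hTRc : ∀ i, ConnOn v w (TR i) univ := by
    intro i
    rw [hTR]
    exact t3 _
  have hTRR : ∀ i, TR i ⊆ univ \ univ.biUnion TH := by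
    intro i e he
    rw [mem_sdiff]
    refine ⟨mem_univ _, fun h => ?_⟩
    obtain ⟨i', -, hi'⟩ := mem_biUnion.1 h
    rw [hTH] at hi'
    rw [hTR] at he
    refine (disjoint_left.1 (t2 _ _ fun h2 => ?_)) he hi'
    have h3 := congrArg Fin.val h2
    rw [Fin.val_natAdd, Fin.val_castAdd] at h3
    have := i'.2
    omega
  have hNk : 2 * (N * g) ≤ k := by omega
  have hlam : ∀ X : Finset V, X.Nonempty → X ≠ univ →
      N * g ≤ (dl v w (univ \ univ.biUnion TH) X).card := fun X hX hXu =>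
    cut_ge_classes v w TR hTRR hTRd hTRc hX hXu
  obtain ⟨A, -, ⟨A', hA', a1, a2⟩, hA2⟩ := rounds hc hq h2d hN hm hk hNk TR hTRd hTRc s j
    (univ.biUnion TH) hH hTRR (N * g) hlam (by
      have h1 := Nat.mul_le_mul_right g hj
      rw [add_mul] at h1
      omega)
  refine ⟨A', a1, a2, fun X hX hXu => ?_⟩
  rw [hA', add_mul]
  exact hA2 X hX hXu

end Pool.Agent.Lib.MP_21a058_co.Thin
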