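import Pool.Agent.Lib.MP_21a058_co.Z.Iter
import Pool.Agent.Lib.MP_21a058_co.Thin.Thin

/-!
MP_21a058_co, `(1 + ε)`: the laminar thin theorem in the form used by the iteration.
-/

set_option linter.unusedSectionVars false
set_option linter.unusedVariables false

namespace Pool.Agent.Lib.MP_21a058_co.Thin

open Finset
open scoped Classical

variable {V E : Type} [Fintype V]

/-- `ThinProp` with `c = 64` -/
theorem thinProp (v w : E → V) (r : V) : ThinProp v w r 64 := by
  intro S hS hr s H hH
  obtain ⟨T, hT, t1, t2⟩ := hH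
  obtain ⟨A, a1, a2, a3, a4⟩ := thin_lam v w ⟨r⟩ s (H := H) T
    (fun i => by rw [← hT]; exact subset_biUnion_of_mem T (mem_univ i)) t1 t2 S hS
    (fun X hX => (hr X hX).1)
    (fun X hX h => (hr X hX).2 (by rw [h]; exact mem_univ r))
  exact ⟨univ.biUnion A, biUnion_subset.2 fun i _ => a1 i, ⟨A, rfl, a2, a3⟩, a4⟩

end Pool.Agent.Lib.MP_21a058_co.Thin
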