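import Pool.Agent.Lib.MP_21a058_co.Thin.Tree

/-! Sets crossing a fixed set: the edges between opposite corners, and chains
(`(1 + ε)`-theorem, steps (c) and (d)). -/

set_option linter.unusedSectionVars false
set_option linter.unusedVariables false

namespace Pool.Agent.Lib.MP_21a058_co.Z

open Finset Pool.Agent.Lib.MP_21a058_co.Thin
open scoped Classical

variable {V E : Type} [Fintype V]

/-- the edges of `R` with one end in `A` and the other in `B` -/
noncomputable def bet (v w : E → V) (R : Finset E) (A B : Finset V) : Finset E :=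
  R.filter fun e => (v e ∈ A ∧ w e ∈ B) ∨ (v e ∈ B ∧ w e ∈ A)

/-- `X` and `Y` cross: all four corners are nonempty -/
def Cross (X Y : Finset V) : Prop :=
  (X ∩ Y).Nonempty ∧ (X \ Y).Nonempty ∧ (Y \ X).Nonempty ∧ ∃ x, x ∉ X ∧ x ∉ Y

/-- (c), the corners outside `Y`: few edges between the corners inside `Y` -/
theorem corner_in (v w : E → V) {R : Finset E} {lam c : ℕ}
    (hlam : ∀ Z : Finset V, Z.Nonempty → Z ≠ univ → lam ≤ (dl v w R Z).card)
    {X Y : Finset V} (hc : Cross X Y) (hX : (dl v w R X).card ≤ lam + c)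
    (hY : (dl v w R Y).card ≤ lam + c) :
    2 * (bet v w R (X ∩ Y) (Y \ X)).card ≤ lam + 3 * c := by
  obtain ⟨⟨x1, h1⟩, ⟨x2, h2⟩, ⟨x3, h3⟩, x4, h4, h4'⟩ := hc
  rw [mem_inter] at h1
  rw [mem_sdiff] at h2 h3
  have hB := hlam (X \ Y) ⟨x2, mem_sdiff.2 h2⟩ (fun h => by
    have : x1 ∈ X \ Y := h ▸ mem_univ x1
    exact (mem_sdiff.1 this).2 h1.2)
  have hD := hlam (X ∪ Y)ᶜ ⟨x4, mem_compl.2 fun h => (mem_union.1 h).elim h4 h4'⟩ (fun h => by
    have : x1 ∈ (X ∪ Y)ᶜ := h ▸ mem_univ x1
    exact (mem_compl.1 this) (mem_union_left _ h1.1))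
  have key : (dl v w R (X \ Y)).card + (dl v w R (X ∪ Y)ᶜ).card + 2 * (bet v w R (X ∩ Y) (Y \ X)).card
      ≤ (dl v w R Y).card + 2 * (dl v w R X).card := by
    unfold dl bet
    simp only [card_filter]
    rw [mul_sum, mul_sum, ← sum_add_distrib, ← sum_add_distrib, ← sum_add_distrib]
    refine sum_le_sum fun e _ => ?_
    simp only [mem_sdiff, mem_compl, mem_union, mem_inter]
    by_cases a1 : v e ∈ X <;> by_cases a2 : v e ∈ Y <;> by_cases a3 : w e ∈ X <;>
      by_cases a4 : w e ∈ Y <;> simp [a1, a2, a3, a4]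
  omega

/-- (c), the corners inside `Y`: few edges between the corners outside `Y` -/
theorem corner_out (v w : E → V) {R : Finset E} {lam c : ℕ}
    (hlam : ∀ Z : Finset V, Z.Nonempty → Z ≠ univ → lam ≤ (dl v w R Z).card)
    {X Y : Finset V} (hc : Cross X Y) (hX : (dl v w R X).card ≤ lam + c)
    (hY : (dl v w R Y).card ≤ lam + c) :
    2 * (bet v w R (X \ Y) (X ∪ Y)ᶜ).card ≤ lam + 3 * c := by
  obtain ⟨⟨x1, h1⟩, ⟨x2, h2⟩, ⟨x3, h3⟩, x4, h4, h4'⟩ := hc
  rw [mem_inter] at h1
  rw [mem_sdiff] at h2 h3
  have hB := hlam (X ∩ Y) ⟨x1, mem_inter.2 h1⟩ (fun h => by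
    have : x2 ∈ X ∩ Y := h ▸ mem_univ x2
    exact h2.2 (mem_inter.1 this).2)
  have hD := hlam (Y \ X) ⟨x3, mem_sdiff.2 h3⟩ (fun h => by
    have : x1 ∈ Y \ X := h ▸ mem_univ x1
    exact (mem_sdiff.1 this).2 h1.1)
  have key : (dl v w R (X ∩ Y)).card + (dl v w R (Y \ X)).card + 2 * (bet v w R (X \ Y) (X ∪ Y)ᶜ).card
      ≤ (dl v w R Y).card + 2 * (dl v w R X).card := by
    unfold dl bet
    simp only [card_filter]
    rw [mul_sum, mul_sum, ← sum_add_distrib, ← sum_add_distrib, ← sum_add_distrib]
    refine sum_le_sum fun e _ => ?_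
    simp only [mem_sdiff, mem_compl, mem_union, mem_inter]
    by_cases a1 : v e ∈ X <;> by_cases a2 : v e ∈ Y <;> by_cases a3 : w e ∈ X <;>
      by_cases a4 : w e ∈ Y <;> simp [a1, a2, a3, a4]
  omega

/-- the chain lemma: `B` is a set, `A 0 ⊂ A 1 ⊂ … ⊂ A q` proper nonempty subsets of `B` -/
theorem chain_aux (v w : E → V) {R : Finset E} {τ : ℕ} (T : Fin τ → Finset E)
    (hTR : ∀ i, T i ⊆ R) (hd : ∀ i j, i ≠ j → Disjoint (T i) (T j))
    (hT : ∀ i, ConnOn v w (T i) univ) {B : Finset V} (hB : ∃ x, x ∉ B) {q c : ℕ}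
    (A : ℕ → Finset V) (hAB : ∀ j ≤ q, A j ⊆ B) (hA : ∀ j < q, A j ⊂ A (j + 1))
    (h0 : (A 0).Nonempty) (hq : (B \ A q).Nonempty)
    (hbet : ∀ j ≤ q, 2 * (bet v w R (A j) (B \ A j)).card ≤ c) :
    2 * (τ * (q + 2)) ≤ 2 * (dl v w R B).card + (q + 1) * c := by
  have hmono : ∀ i j, i ≤ j → j ≤ q → A i ⊆ A j := by
    intro i j hij
    induction j, hij using Nat.le_induction with
    | base => intro _; exact Subset.refl _
    | succ j hij ih => intro hj; exact (ih (by omega)).trans (hA j (by omega)).1
  -- the colouring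
  set p : V → ℕ := fun x => if x ∈ B then ((range (q + 1)).filter fun j => x ∉ A j).card
    else q + 2 with hp
  -- value on `B`: the number of sets not containing `x`
  have hval : ∀ x ∈ B, ∀ j ≤ q, (x ∈ A j ↔ p x ≤ j) := by
    intro x hx j hj
    have hpx : p x = ((range (q + 1)).filter fun j => x ∉ A j).card := by
      rw [hp]; simp only [if_pos hx]
    rw [hpx]
    constructor
    · intro hxj
      have hsub : ((range (q + 1)).filter fun j => x ∉ A j) ⊆ range j := by
        intro i hi
        rw [mem_filter, mem_range] at hi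
        rw [mem_range]
        by_contra hij
        exact hi.2 (hmono j i (by omega) (by omega) hxj)
      calc _ ≤ (range j).card := card_le_card hsub
        _ = j := card_range j
    · intro hle
      by_contra hxj
      have hsub : range (j + 1) ⊆ (range (q + 1)).filter fun j => x ∉ A j := by
        intro i hi
        rw [mem_range] at hi
        rw [mem_filter, mem_range]
        exact ⟨by omega, fun h => hxj (hmono i j (by omega) hj h)⟩
      have := card_le_card hsub
      rw [card_range] at this
      omega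
  -- all colours `0, …, q + 2` occur
  have himg : range (q + 3) ⊆ univ.image p := by
    intro j hj
    rw [mem_range] at hj
    rw [mem_image]
    rcases Nat.lt_or_ge j (q + 1) with h1 | h1
    · rcases Nat.eq_zero_or_pos j with h2 | h2
      · subst h2
        obtain ⟨x, hx⟩ := h0
        have := (hval x (hAB 0 (by omega) hx) 0 (by omega)).1 hx
        exact ⟨x, mem_univ _, by omega⟩
      · obtain ⟨x, hx, hx'⟩ := exists_of_ssubset (hA (j - 1) (by omega))
        rw [show j - 1 + 1 = j by omega] at hx
        have hxB := hAB j (by omega) hx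
        have a1 := (hval x hxB j (by omega)).1 hx
        have a2 : ¬ p x ≤ j - 1 := fun h => hx' ((hval x hxB (j - 1) (by omega)).2 h)
        exact ⟨x, mem_univ _, by omega⟩
    · rcases Nat.lt_or_ge j (q + 2) with h2 | h2
      · obtain ⟨x, hx⟩ := hq
        rw [mem_sdiff] at hx
        have a1 : ¬ p x ≤ q := fun h => hx.2 ((hval x hx.1 q le_rfl).2 h)
        have a2 : p x ≤ q + 1 := by
          rw [hp]
          simp only [if_pos hx.1]
          calc _ ≤ (range (q + 1)).card := card_le_card (filter_subset _ _)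
            _ = q + 1 := card_range _
        exact ⟨x, mem_univ _, by omega⟩
      · obtain ⟨x, hx⟩ := hB
        refine ⟨x, mem_univ _, ?_⟩
        rw [hp]
        simp only [if_neg hx]
        omega
  have h1 : τ * (univ.image p).card ≤ cr v w R p univ + τ := by
    have h0 := conn_cross_mul v w T hTR hd hT p
    have e : ∀ d1 d2 : DecidableEq ℕ, (@Finset.image V ℕ d1 p univ).card =
        (@Finset.image V ℕ d2 p univ).card := fun d1 d2 => by
      rw [Subsingleton.elim d1 d2]
    exact le_trans (le_of_eq (congrArg (fun x => τ * x) (e _ _))) h0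
  have h2 : q + 3 ≤ (univ.image p).card := by
    have := card_le_card himg
    rwa [card_range] at this
  have h3 : cr v w R p univ ≤ (dl v w R B).card +
      ∑ j ∈ range (q + 1), (bet v w R (A j) (B \ A j)).card := by
    unfold cr
    refine le_trans (card_le_card ?_) (le_trans (card_union_le _ _)
      (Nat.add_le_add_left card_biUnion_le _))
    · intro e he
      simp only [mem_filter] at he
      obtain ⟨heR, -, -, hne⟩ := he
      by_cases a1 : v e ∈ B
      · by_cases a2 : w e ∈ B
        · refine mem_union_right _ (mem_biUnion.2 ?_)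
          have b1 : p (v e) ≤ q + 1 := by
            rw [hp]
            simp only [if_pos a1]
            calc _ ≤ (range (q + 1)).card := card_le_card (filter_subset _ _)
              _ = q + 1 := card_range _
          have b2 : p (w e) ≤ q + 1 := by
            rw [hp]
            simp only [if_pos a2]
            calc _ ≤ (range (q + 1)).card := card_le_card (filter_subset _ _)
              _ = q + 1 := card_range _
          rcases Nat.lt_or_gt_of_ne hne with h | h
          · refine ⟨p (v e), mem_range.2 (by omega), mem_filter.2 ⟨heR, Or.inl ⟨?_, ?_⟩⟩⟩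
            · exact (hval _ a1 _ (by omega)).2 le_rfl
            · rw [mem_sdiff]
              exact ⟨a2, fun hh => by
                have := (hval _ a2 _ (by omega)).1 hh
                omega⟩
          · refine ⟨p (w e), mem_range.2 (by omega), mem_filter.2 ⟨heR, Or.inr ⟨?_, ?_⟩⟩⟩
            · rw [mem_sdiff]
              exact ⟨a1, fun hh => by
                have := (hval _ a1 _ (by omega)).1 hh
                omega⟩
            · exact (hval _ a2 _ (by omega)).2 le_rfl
        · exact mem_union_left _ (mem_filter.2 ⟨heR, fun h => a2 (h.1 a1)⟩)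
      · by_cases a2 : w e ∈ B
        · exact mem_union_left _ (mem_filter.2 ⟨heR, fun h => a1 (h.2 a2)⟩)
        · exfalso
          apply hne
          rw [hp]
          simp only [if_neg a1, if_neg a2]
  have h4 : 2 * ∑ j ∈ range (q + 1), (bet v w R (A j) (B \ A j)).card ≤ (q + 1) * c := by
    rw [mul_sum]
    calc _ ≤ ∑ j ∈ range (q + 1), c := sum_le_sum fun j hj => hbet j (by
          rw [mem_range] at hj; omega)
      _ = (q + 1) * c := by rw [sum_const, card_range, smul_eq_mul]
  have h5 : τ * (q + 3) ≤ τ * (univ.image p).card := Nat.mul_le_mul_left _ h2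
  have h6 : τ * (q + 3) = τ * (q + 2) + τ := by ring
  omega

/-- a finite chain can be listed increasingly -/
theorem exists_list {C : Finset (Finset V)} (hC : ∀ X ∈ C, ∀ X' ∈ C, X ⊆ X' ∨ X' ⊆ X) :
    ∀ n, C.card = n + 1 → ∃ A : ℕ → Finset V, (∀ j ≤ n, A j ∈ C) ∧ ∀ j < n, A j ⊂ A (j + 1) := by
  intro n
  induction n generalizing C with
  | zero =>
    intro h
    obtain ⟨X, hX⟩ := card_eq_one.1 h
    exact ⟨fun _ => X, fun j _ => by rw [hX]; exact mem_singleton_self X,
      fun j hj => absurd hj (Nat.not_lt_zero j)⟩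
  | succ n ih =>
    intro h
    obtain ⟨M, hM, hmax⟩ := exists_max_image C card (card_pos.1 (by omega))
    obtain ⟨A, h1, h2⟩ := ih (C := C.erase M)
      (fun X hX X' hX' => hC X (mem_of_mem_erase hX) X' (mem_of_mem_erase hX'))
      (by rw [card_erase_of_mem hM]; omega)
    refine ⟨fun j => if j ≤ n then A j else M, ?_, ?_⟩
    · intro j hj
      by_cases h3 : j ≤ n
      · simp only [if_pos h3]
        exact mem_of_mem_erase (h1 j h3)
      · simp only [if_neg h3]
        exact hM
    · intro j hj
      by_cases h3 : j + 1 ≤ n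
      · simp only [if_pos h3, if_pos (show j ≤ n by omega)]
        exact h2 j (by omega)
      · have h4 : j ≤ n := by omega
        simp only [if_neg h3, if_pos h4]
        have h5 := h1 j h4
        have h6 := mem_of_mem_erase h5
        rcases hC (A j) h6 M hM with h7 | h7
        · exact Finset.ssubset_iff_subset_ne.2 ⟨h7, ne_of_mem_erase h5⟩
        · exact absurd (eq_of_subset_of_card_le h7 (hmax _ h6)).symm (ne_of_mem_erase h5)

theorem dl_compl' (v w : E → V) (R : Finset E) (Y : Finset V) : dl v w R Yᶜ = dl v w R Y := by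
  unfold dl
  ext e
  simp only [mem_filter, mem_compl]
  tauto

/-- arithmetic of the chain lemma -/
theorem chain_arith {N g lam q d : ℕ} (hg : 0 < g) (hN : lam + 5 * g ≤ 2 * (N * g))
    (hd : d ≤ lam + g)
    (h : 2 * (N * g * (q + 2)) ≤ 2 * d + (q + 1) * (lam + 3 * g)) : q + 1 ≤ N := by
  by_contra hcon
  have h1 : N ≤ q := by omega
  have h2 : (q + 1) * (lam + 5 * g) ≤ (q + 1) * (2 * (N * g)) := Nat.mul_le_mul_left _ hN
  have h3 : N * g ≤ q * g := Nat.mul_le_mul_right _ h1
  nlinarith

/-- a chain of sets which cross `Y` -/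
theorem chain_card (v w : E → V) {R : Finset E} {N g lam : ℕ} (hg : 0 < g)
    (T : Fin (N * g) → Finset E)
    (hTR : ∀ i, T i ⊆ R) (hd : ∀ i j, i ≠ j → Disjoint (T i) (T j))
    (hT : ∀ i, ConnOn v w (T i) univ)
    (hlam : ∀ Z : Finset V, Z.Nonempty → Z ≠ univ → lam ≤ (dl v w R Z).card)
    (hN : lam + 5 * g ≤ 2 * (N * g)) {Y : Finset V} (hY : (dl v w R Y).card ≤ lam + g)
    (C : Finset (Finset V)) (hC : ∀ X ∈ C, ∀ X' ∈ C, X ⊆ X' ∨ X' ⊆ X)
    (hcr : ∀ X ∈ C, Cross X Y) (hX : ∀ X ∈ C, (dl v w R X).card ≤ lam + g) :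
    C.card ≤ N * N := by
  have hin : (C.image fun X => X ∩ Y).card ≤ N := by
    rcases Nat.eq_zero_or_pos (C.image fun X => X ∩ Y).card with h0 | h0
    · omega
    · obtain ⟨A, h1, h2⟩ := exists_list (C := C.image fun X => X ∩ Y) (by
        intro X hX X' hX'
        obtain ⟨Z, hZ, rfl⟩ := mem_image.1 hX
        obtain ⟨Z', hZ', rfl⟩ := mem_image.1 hX'
        rcases hC Z hZ Z' hZ' with h | h
        · exact Or.inl (inter_subset_inter_right h)
        · exact Or.inr (inter_subset_inter_right h)) ((C.image fun X => X ∩ Y).card - 1)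
        (by omega)
      set q := (C.image fun X => X ∩ Y).card - 1 with hq
      have hA : ∀ j ≤ q, ∃ X ∈ C, A j = X ∩ Y := by
        intro j hj
        obtain ⟨X, hX, h⟩ := mem_image.1 (h1 j hj)
        exact ⟨X, hX, h.symm⟩
      obtain ⟨X0, hX0, hA0⟩ := hA 0 (by omega)
      obtain ⟨Xq, hXq, hAq⟩ := hA q le_rfl
      have := chain_aux v w T hTR hd hT (B := Y) (q := q) (c := lam + 3 * g)
        (by obtain ⟨x, -, hx⟩ := (hcr X0 hX0).2.2.2; exact ⟨x, hx⟩) A
        (fun j hj => by obtain ⟨X, -, h⟩ := hA j hj; rw [h]; exact inter_subset_right)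
        h2 (by rw [hA0]; exact (hcr X0 hX0).1)
        (by
          rw [hAq]
          obtain ⟨x, hx⟩ := (hcr Xq hXq).2.2.1
          rw [mem_sdiff] at hx
          exact ⟨x, mem_sdiff.2 ⟨hx.1, fun h => hx.2 (mem_inter.1 h).1⟩⟩)
        (fun j hj => by
          obtain ⟨X, hXC, h⟩ := hA j hj
          have h3 := corner_in v w hlam (hcr X hXC) (hX X hXC) hY
          rw [h]
          have h4 : Y \ (X ∩ Y) = Y \ X := by
            ext x
            simp only [mem_sdiff, mem_inter]
            tauto
          rwa [h4])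
      have := chain_arith hg hN hY this
      omega
  have hout : (C.image fun X => X \ Y).card ≤ N := by
    rcases Nat.eq_zero_or_pos (C.image fun X => X \ Y).card with h0 | h0
    · omega
    · obtain ⟨A, h1, h2⟩ := exists_list (C := C.image fun X => X \ Y) (by
        intro X hX X' hX'
        obtain ⟨Z, hZ, rfl⟩ := mem_image.1 hX
        obtain ⟨Z', hZ', rfl⟩ := mem_image.1 hX'
        rcases hC Z hZ Z' hZ' with h | h
        · exact Or.inl (sdiff_subset_sdiff h (Subset.refl _))
        · exact Or.inr (sdiff_subset_sdiff h (Subset.refl _)))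
        ((C.image fun X => X \ Y).card - 1) (by omega)
      set q := (C.image fun X => X \ Y).card - 1 with hq
      have hA : ∀ j ≤ q, ∃ X ∈ C, A j = X \ Y := by
        intro j hj
        obtain ⟨X, hX, h⟩ := mem_image.1 (h1 j hj)
        exact ⟨X, hX, h.symm⟩
      obtain ⟨X0, hX0, hA0⟩ := hA 0 (by omega)
      obtain ⟨Xq, hXq, hAq⟩ := hA q le_rfl
      have := chain_aux v w T hTR hd hT (B := Yᶜ) (q := q) (c := lam + 3 * g)
        (by
          obtain ⟨x, hx⟩ := (hcr X0 hX0).1
          exact ⟨x, fun h => (mem_compl.1 h) (mem_inter.1 hx).2⟩) A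
        (fun j hj => by
          obtain ⟨X, -, h⟩ := hA j hj
          rw [h]
          intro x hx
          exact mem_compl.2 (mem_sdiff.1 hx).2)
        h2 (by rw [hA0]; exact (hcr X0 hX0).2.1)
        (by
          rw [hAq]
          obtain ⟨x, hx, hx'⟩ := (hcr Xq hXq).2.2.2
          exact ⟨x, mem_sdiff.2 ⟨mem_compl.2 hx', fun h => hx (mem_sdiff.1 h).1⟩⟩)
        (fun j hj => by
          obtain ⟨X, hXC, h⟩ := hA j hj
          have h3 := corner_out v w hlam (hcr X hXC) (hX X hXC) hY
          rw [h]
          have h4 : Yᶜ \ (X \ Y) = (X ∪ Y)ᶜ := by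
            ext x
            simp only [mem_sdiff, mem_compl, mem_union]
            tauto
          rwa [h4])
      rw [dl_compl'] at this
      have := chain_arith hg hN hY this
      omega
  calc C.card ≤ ((C.image fun X => X ∩ Y) ×ˢ (C.image fun X => X \ Y)).card := by
        refine card_le_card_of_injOn (fun X => (X ∩ Y, X \ Y)) ?_ ?_
        · intro X hX
          exact mem_product.2 ⟨mem_image_of_mem _ hX, mem_image_of_mem _ hX⟩
        · intro X _ X' _ h
          have h1 : X ∩ Y = X' ∩ Y := congrArg Prod.fst h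
          have h2 : X \ Y = X' \ Y := congrArg Prod.snd h
          ext x
          by_cases hx : x ∈ Y
          · have := congrArg (x ∈ ·) h1
            simp only [mem_inter, hx, and_true] at this
            exact this ▸ Iff.rfl
          · have := congrArg (x ∈ ·) h2
            simp only [mem_sdiff, hx, not_false_eq_true, and_true] at this
            exact this ▸ Iff.rfl
    _ = _ := card_product _ _
    _ ≤ N * N := Nat.mul_le_mul hin hout

end Pool.Agent.Lib.MP_21a058_co.Z
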