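import Pool.Agent.Lib.MP_21a058_co.Thin.Four
import Pool.Agent.Lib.MP_21a058_co.Z.Col

/-! Near-minimum cuts of a graph with many disjoint connected classes: every one of them is crossed
by few of them, so they split into few laminar families (MP_21a058_co). -/

set_option linter.unusedSectionVars false
set_option linter.unusedVariables false

namespace Pool.Agent.Lib.MP_21a058_co.Z

open Finset
open scoped Classical
open Pool.Agent.Lib.MP_21a058_co.Thin

variable {V E : Type} [Fintype V]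

/-- two sets cross (there will always be a vertex outside both) -/
def Crs (X Y : Finset V) : Prop := (X ∩ Y).Nonempty ∧ (X \ Y).Nonempty ∧ (Y \ X).Nonempty

theorem Crs.symm {X Y : Finset V} (h : Crs X Y) : Crs Y X := by
  refine ⟨?_, h.2.2, h.2.1⟩
  rw [inter_comm]
  exact h.1

theorem lam_of_not_crs {X Y : Finset V} (h : ¬ Crs X Y) : X ⊆ Y ∨ Y ⊆ X ∨ Disjoint X Y := by
  by_contra hcon
  push Not at hcon
  refine h ⟨?_, sdiff_nonempty.2 hcon.1, sdiff_nonempty.2 hcon.2.1⟩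
  rw [← not_disjoint_iff_nonempty_inter]
  exact hcon.2.2

/-- the classes with at most one edge at `X` -/
noncomputable def JJ (v w : E → V) {n : ℕ} (T : Fin n → Finset E) (X : Finset V) :
    Finset (Fin n) :=
  univ.filter (fun l => (dl v w (T l) X).card ≤ 1)

theorem mem_JJ {v w : E → V} {n : ℕ} {T : Fin n → Finset E} {X : Finset V} {l : Fin n} :
    l ∈ JJ v w T X ↔ (dl v w (T l) X).card ≤ 1 := by
  unfold JJ
  rw [mem_filter]
  exact ⟨fun h => h.2, fun h => ⟨mem_univ _, h⟩⟩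

/-- `|J X| ≥ 2 n - d_R(X)` -/
theorem card_JJ (v w : E → V) {R : Finset E} {n : ℕ} (T : Fin n → Finset E)
    (hTR : ∀ i, T i ⊆ R) (hd : ∀ i j, i ≠ j → Disjoint (T i) (T j))
    (hT : ∀ i, ConnOn v w (T i) univ) {X : Finset V} {r : V} (hr : r ∉ X) (hne : X.Nonempty) :
    2 * n ≤ (JJ v w T X).card + (dl v w R X).card := by
  obtain ⟨x, hx⟩ := hne
  have h1 : ∀ i : Fin n, 2 ≤ (if (dl v w (T i) X).card ≤ 1 then 1 else 0) +
      (dl v w (T i) X).card := by
    intro i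
    obtain ⟨e, he, -, -, hce⟩ := hT i X ⟨x, mem_univ _, hx⟩ ⟨r, mem_univ _, hr⟩
    have h2 : 1 ≤ (dl v w (T i) X).card := card_pos.2 ⟨e, mem_filter.2 ⟨he, hce⟩⟩
    split_ifs <;> omega
  have h3 : ∑ i : Fin n, 2 ≤ ∑ i : Fin n, ((if (dl v w (T i) X).card ≤ 1 then 1 else 0) +
      (dl v w (T i) X).card) := sum_le_sum fun i _ => h1 i
  rw [sum_const, card_univ, Fintype.card_fin, smul_eq_mul, sum_add_distrib,
    ← card_filter] at h3
  have h4 := sum_dl_le v w T hTR hd X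
  unfold JJ
  omega

/-- crossing sets have no common label -/
theorem JJ_disj (v w : E → V) {n : ℕ} (T : Fin n → Finset E)
    (hT : ∀ i, ConnOn v w (T i) univ) {X Y : Finset V} {r : V} (hrX : r ∉ X) (hrY : r ∉ Y)
    (h : Crs X Y) {l : Fin n} (hl : l ∈ JJ v w T X) : l ∉ JJ v w T Y := by
  intro hl'
  rw [mem_JJ] at hl hl'
  have := three_cross v w (hT l) hrX hrY h.1 h.2.1 h.2.2
  omega

/-- pairwise disjoint sets crossing `Y` -/
theorem sum_JJ_le (v w : E → V) {R : Finset E} {n : ℕ} (T : Fin n → Finset E)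
    (hTR : ∀ i, T i ⊆ R) (hd : ∀ i j, i ≠ j → Disjoint (T i) (T j))
    (hT : ∀ i, ConnOn v w (T i) univ) {Y : Finset V} (S : Finset (Finset V))
    (hS : ∀ X ∈ S, ∀ X' ∈ S, X ≠ X' → Disjoint X X') (hc : ∀ X ∈ S, Crs X Y) :
    ∑ X ∈ S, (JJ v w T X).card ≤ (dl v w R Y).card := by
  -- an edge inside `X` crossing `Y` for every label of `X`
  have hex : ∀ X l, X ∈ S → l ∈ JJ v w T X →
      ∃ e ∈ T l, v e ∈ X ∧ w e ∈ X ∧ ¬ (v e ∈ Y ↔ w e ∈ Y) := by
    intro X l hX hl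
    obtain ⟨x, hx⟩ := (hc X hX).1
    obtain ⟨y, hy⟩ := (hc X hX).2.1
    rw [mem_inter] at hx
    rw [mem_sdiff] at hy
    exact conn_inside v w (hT l) (mem_JJ.1 hl) Y ⟨x, hx.1, hx.2⟩ ⟨y, hy.1, hy.2⟩
  rcases S.eq_empty_or_nonempty with rfl | ⟨X₀, hX₀⟩
  · simp
  by_cases hE : Nonempty E
  · obtain ⟨e₀⟩ := hE
    have hch : ∀ p : Finset V × Fin n, ∃ e : E, p.1 ∈ S → p.2 ∈ JJ v w T p.1 →
        e ∈ T p.2 ∧ v e ∈ p.1 ∧ w e ∈ p.1 ∧ ¬ (v e ∈ Y ↔ w e ∈ Y) := by
      intro p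
      by_cases hp : p.1 ∈ S ∧ p.2 ∈ JJ v w T p.1
      · obtain ⟨e, he⟩ := hex p.1 p.2 hp.1 hp.2
        exact ⟨e, fun _ _ => he⟩
      · exact ⟨e₀, fun h1 h2 => absurd ⟨h1, h2⟩ hp⟩
    choose φ hφ using hch
    rw [← card_sigma]
    refine card_le_card_of_injOn (fun p => φ (p.1, p.2)) ?_ ?_
    · intro p hp
      rw [mem_coe, mem_sigma] at hp
      obtain ⟨h1, h2, h3, h4⟩ := hφ (p.1, p.2) hp.1 hp.2
      exact mem_coe.2 (mem_filter.2 ⟨hTR _ h1, h4⟩)
    · rintro ⟨X, l⟩ hp ⟨X', l'⟩ hp' heq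
      rw [mem_coe, mem_sigma] at hp hp'
      obtain ⟨h1, h2, h3, h4⟩ := hφ (X, l) hp.1 hp.2
      obtain ⟨h1', h2', h3', h4'⟩ := hφ (X', l') hp'.1 hp'.2
      simp only at heq h1 h2 h1' h2'
      rw [← heq] at h1' h2'
      have hX : X = X' := by
        by_contra hne
        exact disjoint_left.1 (hS X hp.1 X' hp'.1 hne) h2 h2'
      have hl : l = l' := by
        by_contra hne
        exact disjoint_left.1 (hd l l' hne) h1 h1'
      rw [hX, hl]
  · -- no edges: no labels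
    refine le_trans (le_of_eq ?_) (Nat.zero_le _)
    refine sum_eq_zero fun X hX => ?_
    rw [card_eq_zero, eq_empty_iff_forall_notMem]
    intro l hl
    obtain ⟨e, -⟩ := hex X l hX hl
    exact hE ⟨e⟩

/-- Every member of `L` is crossed by at most `N * N * q` members, if chains of members crossing a
given one have at most `q` members. -/
theorem degree_le (v w : E → V) {R : Finset E} {N g : ℕ} (hg : 0 < g)
    (T : Fin (N * g) → Finset E) (hTR : ∀ i, T i ⊆ R)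
    (hd : ∀ i j, i ≠ j → Disjoint (T i) (T j)) (hT : ∀ i, ConnOn v w (T i) univ) (r : V)
    (L : Finset (Finset V)) (hr : ∀ X ∈ L, r ∉ X) (hne : ∀ X ∈ L, X.Nonempty)
    (hL : ∀ X ∈ L, (dl v w R X).card + 4 * g ≤ 2 * (N * g)) (q : ℕ)
    (hch : ∀ Y ∈ L, ∀ C ⊆ L, (∀ X ∈ C, Crs X Y) →
      (∀ X ∈ C, ∀ X' ∈ C, X ⊆ X' ∨ X' ⊆ X) → C.card ≤ q)
    {Y : Finset V} (hY : Y ∈ L) :
    (L.filter (fun X => Crs X Y)).card ≤ N * N * q := by
  set S := L.filter (fun X => Crs X Y) with hS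
  have hSL : S ⊆ L := filter_subset _ _
  have hJ : ∀ X ∈ L, 4 * g ≤ (JJ v w T X).card := by
    intro X hX
    have h1 := card_JJ v w T hTR hd hT (hr X hX) (hne X hX)
    have h2 := hL X hX
    omega
  -- one label
  have hone : ∀ l : Fin (N * g), (S.filter (fun X => l ∈ JJ v w T X)).card ≤ N * q := by
    intro l
    refine laminar_card _ (fun X hX => hne X (hSL (mem_filter.1 hX).1)) ?_ N q ?_ ?_
    · intro X hX X' hX'
      rw [mem_filter] at hX hX'
      refine lam_of_not_crs fun hc => ?_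
      exact JJ_disj v w T hT (hr X (hSL hX.1)) (hr X' (hSL hX'.1)) hc hX.2 hX'.2
    · intro C hC hdis
      have h1 := sum_JJ_le v w T hTR hd hT (Y := Y) C hdis fun X hX =>
        (mem_filter.1 (mem_filter.1 (hC hX)).1).2
      have h2 : ∑ X ∈ C, 4 * g ≤ ∑ X ∈ C, (JJ v w T X).card :=
        sum_le_sum fun X hX => hJ X (hSL (mem_filter.1 (hC hX)).1)
      rw [sum_const, smul_eq_mul] at h2
      have h3 := hL Y hY
      have h4 : C.card * (4 * g) ≤ N * (4 * g) := by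
        have h5 : 2 * (N * g) ≤ N * (4 * g) := by nlinarith
        omega
      exact Nat.le_of_mul_le_mul_right h4 (by omega)
    · intro C hC hcomp
      exact hch Y hY C (fun X hX => hSL (mem_filter.1 (hC hX)).1)
        (fun X hX => (mem_filter.1 (mem_filter.1 (hC hX)).1).2) hcomp
  -- double counting
  have h1 : ∑ X ∈ S, (JJ v w T X).card =
      ∑ l : Fin (N * g), (S.filter (fun X => l ∈ JJ v w T X)).card := by
    have h2 : ∀ X ∈ S, (JJ v w T X).card =
        ∑ l : Fin (N * g), if l ∈ JJ v w T X then 1 else 0 := by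
      intro X _
      rw [← card_filter]
      congr 1
      ext l
      simp
    rw [sum_congr rfl h2, sum_comm]
    refine sum_congr rfl fun l _ => ?_
    rw [card_filter]
  have h2 : ∑ X ∈ S, g ≤ ∑ X ∈ S, (JJ v w T X).card := by
    refine sum_le_sum fun X hX => ?_
    have := hJ X (hSL hX)
    omega
  have h3 : ∑ l : Fin (N * g), (S.filter (fun X => l ∈ JJ v w T X)).card ≤
      ∑ l : Fin (N * g), N * q := sum_le_sum fun l _ => hone l
  rw [sum_const, smul_eq_mul] at h2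
  rw [sum_const, card_univ, Fintype.card_fin, smul_eq_mul] at h3
  have h4 : S.card * g ≤ N * N * q * g := by
    calc S.card * g ≤ _ := h2
      _ ≤ _ := h1.le
      _ ≤ _ := h3
      _ = N * N * q * g := by ring
  exact Nat.le_of_mul_le_mul_right h4 hg

/-- `L` is the union of `N * N * q + 1` laminar families. -/
theorem laminar_classes (v w : E → V) {R : Finset E} {N g : ℕ} (hg : 0 < g)
    (T : Fin (N * g) → Finset E) (hTR : ∀ i, T i ⊆ R)
    (hd : ∀ i j, i ≠ j → Disjoint (T i) (T j)) (hT : ∀ i, ConnOn v w (T i) univ) (r : V)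
    (L : Finset (Finset V)) (hr : ∀ X ∈ L, r ∉ X) (hne : ∀ X ∈ L, X.Nonempty)
    (hL : ∀ X ∈ L, (dl v w R X).card + 4 * g ≤ 2 * (N * g)) (q : ℕ)
    (hch : ∀ Y ∈ L, ∀ C ⊆ L, (∀ X ∈ C, Crs X Y) →
      (∀ X ∈ C, ∀ X' ∈ C, X ⊆ X' ∨ X' ⊆ X) → C.card ≤ q) :
    ∃ c : Finset V → Fin (N * N * q + 1), ∀ X ∈ L, ∀ Y ∈ L, c X = c Y →
      X ⊆ Y ∨ Y ⊆ X ∨ Disjoint X Y := by
  obtain ⟨c, hc⟩ := greedy (fun X Y : Finset V => Crs X Y) (fun X Y h => h.symm) (N * N * q) L
    (fun Y hY => by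
      refine le_trans (card_le_card ?_) (degree_le v w hg T hTR hd hT r L hr hne hL q hch hY)
      intro X hX
      have h2 : X ∈ L ∧ X ≠ Y ∧ Crs Y X := by simpa using hX
      exact mem_filter.2 ⟨h2.1, h2.2.2.symm⟩)
  refine ⟨c, fun X hX Y hY hcc => ?_⟩
  by_cases hXY : X = Y
  · exact Or.inl hXY.subset
  · exact lam_of_not_crs fun hcr => hc X hX Y hY hXY hcr hcc

end Pool.Agent.Lib.MP_21a058_co.Z
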