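import Pool.Agent.Lib.MP_21a058_co.Thin.Defs
import Pool.Agent.Lib.MP_21a058_co.Thin.Tree

/-!
MP_21a058_co, `(1 + ε)`: the iteration (proof of helper43), from two abstract inputs.

* `ThinProp v w r c` : for a laminar family `S` of nonempty sets without `r` and `c * s` disjoint connected
  classes there are `s` disjoint connected classes inside them whose union has at most half as many edges
  at every member of `S`.
* `NearCol v w r N g d q` : the sets without `r` with at most `lam + g` edges (all cuts have at least `lam`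
  edges, `lam + (d + 1) g ≤ 2 N g`, `N g` disjoint connected classes) split into `q` laminar families.
-/

set_option linter.unusedSectionVars false
set_option linter.unusedVariables false

namespace Pool.Agent.Lib.MP_21a058_co.Thin

open Finset
open scoped Classical

variable {V E : Type} [Fintype V]

/-- `H` is the union of `n` disjoint connected classes. -/
def Trees (v w : E → V) (H : Finset E) (n : ℕ) : Prop :=
  ∃ T : Fin n → Finset E, univ.biUnion T = H ∧ (∀ i j, i ≠ j → Disjoint (T i) (T j)) ∧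
    ∀ i, ConnOn v w (T i) univ

/-- thin classes for one laminar family, factor `1/2` -/
def ThinProp (v w : E → V) (r : V) (c : ℕ) : Prop :=
  ∀ S : Finset (Finset V), (∀ X ∈ S, ∀ Y ∈ S, X ⊆ Y ∨ Y ⊆ X ∨ Disjoint X Y) →
    (∀ X ∈ S, X.Nonempty ∧ r ∉ X) → ∀ (s : ℕ) (H : Finset E), Trees v w H (c * s) →
    ∃ A : Finset E, A ⊆ H ∧ Trees v w A s ∧
      ∀ Y ∈ S, 2 * (dl v w A Y).card ≤ (dl v w H Y).card

/-- the near minimum cuts split into `q` laminar families -/
def NearCol (v w : E → V) (r : V) (N g d q : ℕ) : Prop :=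
  ∀ (R : Finset E) (lam : ℕ) (T : Fin (N * g) → Finset E), (∀ i, T i ⊆ R) →
    (∀ i j, i ≠ j → Disjoint (T i) (T j)) → (∀ i, ConnOn v w (T i) univ) →
    (∀ X : Finset V, X.Nonempty → X ≠ univ → lam ≤ (dl v w R X).card) →
    lam + (d + 1) * g ≤ 2 * (N * g) →
    ∃ c : Finset V → Fin q, ∀ X Y : Finset V, X.Nonempty → r ∉ X →
      (dl v w R X).card ≤ lam + g → Y.Nonempty → r ∉ Y → (dl v w R Y).card ≤ lam + g →
      c X = c Y → X ⊆ Y ∨ Y ⊆ X ∨ Disjoint X Y

private lemma dlm (v w : E → V) {B C : Finset E} (h : B ⊆ C) (X : Finset V) :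
    dl v w B X ⊆ dl v w C X := filter_subset_filter _ h

private lemma dlc (v w : E → V) (B : Finset E) (X : Finset V) : dl v w B Xᶜ = dl v w B X := by
  unfold dl
  refine filter_congr fun e _ => ?_
  rw [mem_compl, mem_compl]
  tauto

/-- `m` applications for one laminar family -/
theorem thin_pow {v w : E → V} {r : V} {c : ℕ} (hc : ThinProp v w r c) {S : Finset (Finset V)}
    (hS : ∀ X ∈ S, ∀ Y ∈ S, X ⊆ Y ∨ Y ⊆ X ∨ Disjoint X Y) (hr : ∀ X ∈ S, X.Nonempty ∧ r ∉ X)
    (m : ℕ) : ∀ (s : ℕ) (H : Finset E), Trees v w H (c ^ m * s) →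
    ∃ A : Finset E, A ⊆ H ∧ Trees v w A s ∧
      ∀ Y ∈ S, 2 ^ m * (dl v w A Y).card ≤ (dl v w H Y).card := by
  induction m with
  | zero =>
    intro s H hH
    rw [pow_zero, one_mul] at hH
    exact ⟨H, Subset.refl H, hH, fun Y _ => by rw [pow_zero, one_mul]⟩
  | succ m ih =>
    intro s H hH
    have e1 : c ^ (m + 1) * s = c * (c ^ m * s) := by ring
    rw [e1] at hH
    obtain ⟨A, hAH, hA, hA2⟩ := hc S hS hr (c ^ m * s) H hH
    obtain ⟨B, hBA, hB, hB2⟩ := ih s A hA
    refine ⟨B, hBA.trans hAH, hB, fun Y hY => ?_⟩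
    have h1 := hA2 Y hY
    have h2 := hB2 Y hY
    have h3 : 2 ^ (m + 1) * (dl v w B Y).card = 2 * (2 ^ m * (dl v w B Y).card) := by ring
    omega

/-- `q` laminar families, factor `2 ^ m` -/
theorem thin_many {v w : E → V} {r : V} {c : ℕ} (hc : ThinProp v w r c) (m : ℕ) (q : ℕ) :
    ∀ S : Fin q → Finset (Finset V),
    (∀ i, ∀ X ∈ S i, ∀ Y ∈ S i, X ⊆ Y ∨ Y ⊆ X ∨ Disjoint X Y) →
    (∀ i, ∀ X ∈ S i, X.Nonempty ∧ r ∉ X) →
    ∀ (s : ℕ) (H : Finset E), Trees v w H ((c ^ m) ^ q * s) →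
    ∃ A : Finset E, A ⊆ H ∧ Trees v w A s ∧
      ∀ i, ∀ Y ∈ S i, 2 ^ m * (dl v w A Y).card ≤ (dl v w H Y).card := by
  induction q with
  | zero =>
    intro S _ _ s H hH
    rw [pow_zero, one_mul] at hH
    exact ⟨H, Subset.refl H, hH, fun i => i.elim0⟩
  | succ q ih =>
    intro S hS hr s H hH
    have e1 : (c ^ m) ^ (q + 1) * s = c ^ m * ((c ^ m) ^ q * s) := by ring
    rw [e1] at hH
    obtain ⟨A, hAH, hA, hA2⟩ := thin_pow hc (hS 0) (hr 0) m ((c ^ m) ^ q * s) H hH
    obtain ⟨B, hBA, hB, hB2⟩ := ih (fun i => S i.succ) (fun i => hS i.succ) (fun i => hr i.succ)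
      s A hA
    refine ⟨B, hBA.trans hAH, hB, ?_⟩
    intro i
    refine Fin.cases ?_ ?_ i
    · intro Y hY
      have h1 := hA2 Y hY
      have h2 := Nat.mul_le_mul_left (2 ^ m) (card_le_card (dlm v w hBA Y))
      omega
    · intro j Y hY
      exact (hB2 j Y hY).trans (card_le_card (dlm v w hAH Y))

/-- one round: all cuts outside `H` gain `g` edges -/
theorem round [Fintype E] {v w : E → V} {r : V} {c N g d q m : ℕ} (hc : ThinProp v w r c)
    (hq : NearCol v w r N g d q) (h2d : 2 ≤ d) (hN : 0 < N) (hm : N ≤ 2 ^ m) {k : ℕ}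
    (hk : ∀ X : Finset V, X.Nonempty → X ≠ univ → k ≤ (dl v w univ X).card)
    (hNk : 2 * (N * g) ≤ k) {H : Finset E} {s : ℕ} (hH : Trees v w H ((c ^ m) ^ q * s))
    (T : Fin (N * g) → Finset E) (hTR : ∀ i, T i ⊆ univ \ H)
    (hd : ∀ i j, i ≠ j → Disjoint (T i) (T j)) (hT : ∀ i, ConnOn v w (T i) univ) {lam : ℕ}
    (hlam : ∀ X : Finset V, X.Nonempty → X ≠ univ → lam ≤ (dl v w (univ \ H) X).card)
    (h5 : lam + (d + 1) * g ≤ 2 * (N * g)) :
    ∃ A : Finset E, A ⊆ H ∧ Trees v w A s ∧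
      ∀ X : Finset V, X.Nonempty → X ≠ univ → lam + g ≤ (dl v w (univ \ A) X).card := by
  obtain ⟨c', hc'⟩ := hq (univ \ H) lam T hTR hd hT hlam h5
  obtain ⟨S, hS⟩ : ∃ S : Fin q → Finset (Finset V), ∀ i, S i = univ.filter fun X =>
      X.Nonempty ∧ r ∉ X ∧ (dl v w (univ \ H) X).card ≤ lam + g ∧ c' X = i := ⟨_, fun _ => rfl⟩
  have hSm : ∀ i X, X ∈ S i ↔ X.Nonempty ∧ r ∉ X ∧ (dl v w (univ \ H) X).card ≤ lam + g ∧
      c' X = i := by
    intro i X
    rw [hS, mem_filter]
    exact ⟨fun h => h.2, fun h => ⟨mem_univ _, h⟩⟩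
  obtain ⟨A, hAH, hA, hA2⟩ := thin_many hc m q S
    (by
      intro i X hX Y hY
      obtain ⟨x1, x2, x3, x4⟩ := (hSm i X).1 hX
      obtain ⟨y1, y2, y3, y4⟩ := (hSm i Y).1 hY
      exact hc' X Y x1 x2 x3 y1 y2 y3 (x4.trans y4.symm))
    (by
      intro i X hX
      obtain ⟨x1, x2, -, -⟩ := (hSm i X).1 hX
      exact ⟨x1, x2⟩) s H hH
  refine ⟨A, hAH, hA, ?_⟩
  have key : ∀ X : Finset V, X.Nonempty → r ∉ X → lam + g ≤ (dl v w (univ \ A) X).card := by
    intro X hX hr
    have hXu : X ≠ univ := fun h1 => hr (by rw [h1]; exact mem_univ r)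
    by_cases h1 : (dl v w (univ \ H) X).card ≤ lam + g
    · have h2 := hA2 (c' X) X ((hSm _ X).2 ⟨hX, hr, h1, rfl⟩)
      have h3 := hk X hX hXu
      have h4 : (dl v w univ X).card = (dl v w (univ \ A) X).card + (dl v w A X).card := by
        have h5 : dl v w (univ \ A) X = dl v w univ X \ dl v w A X := by
          unfold dl
          ext e
          simp only [mem_filter, mem_sdiff]
          tauto
        rw [h5, card_sdiff_add_card_eq_card (dlm v w (subset_univ A) X)]
      have h6 := card_le_card (dlm v w (subset_univ H) X)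
      have h7 := Nat.mul_le_mul_right (dl v w A X).card hm
      obtain ⟨M, hM⟩ : ∃ M, N = M + 1 := ⟨N - 1, by omega⟩
      have h8 : M * (2 * g) ≤ (dl v w (univ \ A) X).card := by
        by_contra hcon
        push Not at hcon
        have h9 : (M + 1) * ((dl v w (univ \ A) X).card + 1) ≤ (M + 1) * (M * (2 * g)) :=
          Nat.mul_le_mul_left _ hcon
        have h10 : (M + 1) * (M * (2 * g)) = M * (2 * ((M + 1) * g)) := by ring
        have h11 : M * (2 * ((M + 1) * g)) ≤ M * (dl v w univ X).card :=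
          Nat.mul_le_mul_left _ (by rw [← hM]; exact hNk.trans h3)
        have h12 : (M + 1) * (dl v w univ X).card =
            M * (dl v w univ X).card + (dl v w univ X).card := by ring
        have h13 : (M + 1) * ((dl v w (univ \ A) X).card + 1) =
            (M + 1) * (dl v w (univ \ A) X).card + (M + 1) := by ring
        have h14 : (M + 1) * (dl v w univ X).card =
            (M + 1) * (dl v w (univ \ A) X).card + (M + 1) * (dl v w A X).card := by
          rw [h4]; ring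
        rw [hM] at h7
        omega
      have h15 : 2 * (N * g) = M * (2 * g) + 2 * g := by rw [hM]; ring
      have h16 := Nat.mul_le_mul_right g (show 3 ≤ d + 1 by omega)
      omega
    · push Not at h1
      have h2 := card_le_card (dlm v w (sdiff_subset_sdiff (Subset.refl (univ : Finset E)) hAH) X)
      omega
  intro X hX hXu
  by_cases hr : r ∈ X
  · have h1 := key Xᶜ (by
      rw [nonempty_iff_ne_empty]
      intro h2
      exact hXu (compl_eq_empty_iff X |>.1 h2)) (by rw [mem_compl, not_not]; exact hr)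
    rwa [dlc] at h1
  · exact key X hX hr

/-- `j` rounds -/
theorem rounds [Fintype E] {v w : E → V} {r : V} {c N g d q m : ℕ} (hc : ThinProp v w r c)
    (hq : NearCol v w r N g d q) (h2d : 2 ≤ d) (hN : 0 < N) (hm : N ≤ 2 ^ m) {k : ℕ}
    (hk : ∀ X : Finset V, X.Nonempty → X ≠ univ → k ≤ (dl v w univ X).card)
    (hNk : 2 * (N * g) ≤ k)
    (T : Fin (N * g) → Finset E)
    (hd : ∀ i j, i ≠ j → Disjoint (T i) (T j)) (hT : ∀ i, ConnOn v w (T i) univ) (s : ℕ) (j : ℕ) :
    ∀ (H : Finset E), Trees v w H (((c ^ m) ^ q) ^ j * s) → (∀ i, T i ⊆ univ \ H) →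
    ∀ lam : ℕ, (∀ X : Finset V, X.Nonempty → X ≠ univ → lam ≤ (dl v w (univ \ H) X).card) →
    lam + j * g + d * g ≤ 2 * (N * g) →
    ∃ A : Finset E, A ⊆ H ∧ Trees v w A s ∧
      ∀ X : Finset V, X.Nonempty → X ≠ univ → lam + j * g ≤ (dl v w (univ \ A) X).card := by
  induction j with
  | zero =>
    intro H hH hTR lam hlam h5
    rw [pow_zero, one_mul] at hH
    exact ⟨H, Subset.refl H, hH, fun X hX hXu => by
      rw [zero_mul, add_zero]
      exact hlam X hX hXu⟩
  | succ j ih =>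
    intro H hH hTR lam hlam h5
    have e1 : ((c ^ m) ^ q) ^ (j + 1) * s = (c ^ m) ^ q * (((c ^ m) ^ q) ^ j * s) := by ring
    rw [e1] at hH
    have e2 : (j + 1) * g = j * g + g := by ring
    rw [e2] at h5
    have e3 : (d + 1) * g = d * g + g := by ring
    obtain ⟨B, hBH, hB, hB2⟩ := round hc hq h2d hN hm hk hNk hH T hTR hd hT hlam (by omega)
    obtain ⟨A, hAB, hA, hA2⟩ := ih B hB
      (fun i => (hTR i).trans (sdiff_subset_sdiff (Subset.refl _) hBH)) (lam + g) hB2 (by omega)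
    refine ⟨A, hAB.trans hBH, hA, fun X hX hXu => ?_⟩
    have h1 := hA2 X hX hXu
    rw [e2]
    omega

end Pool.Agent.Lib.MP_21a058_co.Thin
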