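import Pool.Agent.Lib.MP_21a058_co.Z.Iter
import Pool.Agent.Lib.MP_21a058_co.Z.Deg
import Pool.Agent.Lib.MP_21a058_co.Z.Chain

/-! The near minimum cuts split into boundedly many laminar families (MP_21a058_co). -/

set_option linter.unusedSectionVars false
set_option linter.unusedVariables false

namespace Pool.Agent.Lib.MP_21a058_co.Z

open Finset
open scoped Classical
open Pool.Agent.Lib.MP_21a058_co.Thin

variable {V E : Type} [Fintype V]

/-- The structure theorem in the form used by the iteration. -/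
theorem near_col (v w : E → V) (r : V) (N g : ℕ) (hg : 0 < g) :
    NearCol v w r N g 4 (N * N * (N * N) + 1) := by
  intro R lam T hTR hd hT hlam h5
  obtain ⟨c, hc⟩ := laminar_classes v w hg T hTR hd hT r
    (univ.filter fun X => X.Nonempty ∧ r ∉ X ∧ (dl v w R X).card ≤ lam + g)
    (fun X hX => (mem_filter.1 hX).2.2.1) (fun X hX => (mem_filter.1 hX).2.1)
    (fun X hX => by
      have h1 := (mem_filter.1 hX).2.2.2
      omega) (N * N)
    (fun Y hY C hC hcr hch => by
      refine chain_card v w hg T hTR hd hT hlam (by omega) (mem_filter.1 hY).2.2.2 C hch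
        (fun X hX => ?_) (fun X hX => (mem_filter.1 (hC hX)).2.2.2)
      exact ⟨(hcr X hX).1, (hcr X hX).2.1, (hcr X hX).2.2, r, (mem_filter.1 (hC hX)).2.2.1,
        (mem_filter.1 hY).2.2.1⟩)
  refine ⟨c, fun X Y hX hrX hdX hY hrY hdY hcc => ?_⟩
  exact hc X (mem_filter.2 ⟨mem_univ _, hX, hrX, hdX⟩) Y (mem_filter.2 ⟨mem_univ _, hY, hrY, hdY⟩)
    hcc

end Pool.Agent.Lib.MP_21a058_co.Z
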