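import Pool.Agent.Lib.MP_21a058_co.Z.Asm
import Pool.Agent.Lib.MP_21a058_co.Z.Box
import Pool.Agent.Lib.MP_21a058_co.Z.Near

/-!
MP_21a058_co, `(1 + ε)`: the graph theorem. For every `q` there is `C` such that a graph in which all
cuts have at least `k` edges, `(q + 1) l + C s ≤ q k`, contains `s` disjoint connected classes outside
which all cuts have at least `l` edges.
-/

set_option linter.unusedSectionVars false
set_option linter.unusedVariables false

namespace Pool.Agent.Lib.MP_21a058_co.Thin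

open Finset
open scoped Classical

theorem main_eps (q : ℕ) (hq : 1 ≤ q) : ∃ C : ℕ, ∀ (V E : Type) [Fintype V] [Fintype E]
    (v w : E → V) (k l s : ℕ), Nonempty V →
    (∀ X : Finset V, X.Nonempty → X ≠ univ → k ≤ (dl v w univ X).card) →
    (q + 1) * l + C * s ≤ q * k →
    ∃ A : Fin s → Finset E, (∀ i j, i ≠ j → Disjoint (A i) (A j)) ∧
      (∀ i, ConnOn v w (A i) univ) ∧ ∀ X : Finset V, X.Nonempty → X ≠ univ →
        l ≤ (dl v w (univ \ univ.biUnion A) X).card := by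
  obtain ⟨N, hN⟩ : ∃ N, N = 2 * q + 2 := ⟨_, rfl⟩
  obtain ⟨Q, hQ⟩ : ∃ Q, N * N * (N * N) + 1 = Q := ⟨_, rfl⟩
  obtain ⟨c, hc⟩ : ∃ c, c = ((64 ^ N) ^ Q) ^ (2 * q - 2) := ⟨_, rfl⟩
  refine ⟨2 * (q * c) + 4 * q * (q + 1), ?_⟩
  intro V E _ _ v w k l s hV hk h
  rcases Nat.eq_zero_or_pos s with hs | hs
  · subst hs
    refine ⟨fun i => i.elim0, fun i => i.elim0, fun i => i.elim0, fun X hX hXu => ?_⟩
    have h1 : univ.biUnion (fun i : Fin 0 => (i.elim0 : Finset E)) = ∅ := by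
      rw [univ_eq_empty, biUnion_empty]
    rw [h1, sdiff_empty]
    refine le_trans ?_ (hk X hX hXu)
    rw [mul_zero, add_zero] at h
    have h2 : q * l ≤ q * k := le_trans (Nat.mul_le_mul_right l (by omega)) h
    exact Nat.le_of_mul_le_mul_left h2 (by omega)
  obtain ⟨r⟩ := id hV
  obtain ⟨g, hg⟩ : ∃ g, g = l / (4 * q) + 1 := ⟨_, rfl⟩
  have hq4 : 0 < 4 * q := by omega
  have e1 : l < 4 * q * g := by
    rw [hg]
    exact Nat.lt_mul_div_succ l hq4
  have e2 : 4 * q * g ≤ l + 4 * q := by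
    have := Nat.mul_div_le l (4 * q)
    rw [hg, mul_add, mul_one]
    omega
  have hks : 2 * (((64 ^ N) ^ Q) ^ (2 * q - 2) * s + N * g) ≤ k := by
    rw [← hc]
    refine Nat.le_of_mul_le_mul_left ?_ (show 0 < q by omega)
    refine le_trans ?_ h
    have h1 : q * (2 * (c * s + N * g)) = 2 * (q * c) * s + (q + 1) * (4 * q * g) := by
      rw [hN]; ring
    have h2 := Nat.mul_le_mul_left (q + 1) e2
    have h3 : (q + 1) * (l + 4 * q) = (q + 1) * l + 4 * q * (q + 1) := by ring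
    have h4 : 4 * q * (q + 1) ≤ 4 * q * (q + 1) * s := Nat.le_mul_of_pos_right _ hs
    have h5 : (2 * (q * c) + 4 * q * (q + 1)) * s = 2 * (q * c) * s + 4 * q * (q + 1) * s := by
      ring
    omega
  have hnear := Pool.Agent.Lib.MP_21a058_co.Z.near_col v w r N g
    (by rw [hg]; exact Nat.succ_pos _)
  rw [hQ] at hnear
  obtain ⟨A, a1, a2, a3⟩ := asm (thinProp v w r) hnear
    (show 2 ≤ 4 by omega) (show 0 < N by omega) (Nat.lt_two_pow_self (n := N)).le
    (show 2 * q - 2 + 4 ≤ N by omega) hk hks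
  refine ⟨A, a1, a2, fun X hX hXu => le_trans ?_ (a3 X hX hXu)⟩
  have h1 : (N + (2 * q - 2)) * g = 4 * q * g := by
    congr 1
    omega
  omega

end Pool.Agent.Lib.MP_21a058_co.Thin
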