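import Pool.Agent.Lib.MP_21a058_co.Z.Atoms
import Pool.Agent.Lib.MP_21a058_co.Z.Iter

/-! `NearCol` from the atoms (MP_21a058_co). -/

set_option linter.unusedSectionVars false
set_option linter.unusedVariables false

namespace Pool.Agent.Lib.MP_21a058_co.Thin

open Finset
open scoped Classical

variable {V E : Type} [Fintype V]

/-- The near-minimum cuts of a graph with `2 q ^ 2 g` disjoint connected spanning classes are
`2 ^ (2 q) + 1` laminar families. -/
theorem nearCol_atoms (v w : E → V) (r : V) (q g : ℕ) (hq : 1 ≤ q) (hg : 1 ≤ g) :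
    NearCol v w r (2 * q ^ 2) g (4 * q - 1) (2 ^ (2 * q) + 1) := by
  intro R lam T hTR hd hT hlam h
  refine atoms_col v w r R T hTR hd hT lam g (2 * q) hlam ?_
  obtain ⟨k, rfl⟩ : ∃ k, q = k + 1 := ⟨q - 1, by omega⟩
  have e1 : 4 * (k + 1) - 1 + 1 = 4 * (k + 1) := by omega
  rw [e1] at h
  have h1 : lam ≤ 4 * (k + 1) * k * g := by
    have h2 : 2 * (2 * (k + 1) ^ 2 * g) = 4 * (k + 1) * k * g + 4 * (k + 1) * g := by ring
    omega
  have h3 : (2 * (k + 1) + 1) * (lam + 2 * (k + 1) * g) ≤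
      (2 * (k + 1) + 1) * (4 * (k + 1) * k * g + 2 * (k + 1) * g) :=
    Nat.mul_le_mul_left _ (by omega)
  have h4 : (2 * (k + 1) + 1) * (4 * (k + 1) * k * g + 2 * (k + 1) * g) + 2 * (k + 1) * g =
      2 * (2 * (k + 1) ^ 2 * g) * (2 * (k + 1)) := by ring
  have h5 : 0 < 2 * (k + 1) * g := by positivity
  omega

end Pool.Agent.Lib.MP_21a058_co.Thin
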